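import Pool.Agent.Run7.h427.DS.Core

/-!
# The Deligne–Serre criterion for `GL_n`
-/

set_option autoImplicit false

namespace Run7.h427.DS

open Topology Filter NumberField IsDedekindDomain Polynomial
open Pool.Agent.W401.Cheb Pool.Agent.W528.Ord
open scoped Matrix

variable {F E : Type} [Field F] [NumberField F] [Field E] [NumberField E] {n : ℕ}

theorem finite_mem {x : 𝓞 E} (hx : x ≠ 0) :
    {𝔩 : HeightOneSpectrum (𝓞 E) | x ∈ 𝔩.asIdeal}.Finite := by
  have hfac : {w : HeightOneSpectrum (𝓞 E) | w.asIdeal ∣ Ideal.span {x}}.Finite :=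
    Ideal.finite_factors (by rw [Ne, Ideal.zero_eq_bot, Ideal.span_singleton_eq_bot]; exact hx)
  refine hfac.subset fun v hv => ?_
  change v.asIdeal ∣ Ideal.span {x}
  rw [Ideal.dvd_span_singleton]
  exact hv

theorem exists_large (Θ : HeckeSystem F E n) (hn : 0 < n) (hms : Θ.FewTraces)
    (hinf : Θ.modPrimes.Infinite) (B : ℕ) {K : Type} [Field K] [CharZero K] [IsAlgClosed K]
    (φ : 𝓞 E →+* K) :
    ∃ ℓ : ℕ, ℓ.Prime ∧ B < ℓ ∧ ∃ R : GK F →* GL (Fin n) K, IsOpen (R.ker : Set (GK F)) ∧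
      ∀ v ∉ Θ.S, ((ℓ : ℕ) : 𝓞 F) ∉ v.asIdeal → Θ.Matches φ R v := by
  classical
  obtain ⟨Y, η, hη, hY⟩ := hms
  let A : ℕ := bd n Y η
  let N : ℕ := A.factorial
  have hN : 0 < N := A.factorial_pos
  have : NeZero N := ⟨hN.ne'⟩
  let E' : Type := CyclotomicField N E
  have hz := IsCyclotomicExtension.zeta_spec N E E'
  have hz' := hz.toInteger_isPrimitiveRoot
  -- the indices
  let ι : Type := {𝔩 : HeightOneSpectrum (𝓞 E) // ∃ r : Θ.ModRep, RingHom.ker r.φ = 𝔩.asIdeal ∧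
    max n B < ringChar r.k}
  have hι : Infinite ι := by
    refine (Set.infinite_coe_iff (s := {𝔩 : HeightOneSpectrum (𝓞 E) | ∃ r : Θ.ModRep,
      RingHom.ker r.φ = 𝔩.asIdeal ∧ max n B < ringChar r.k})).mpr ?_
    have h1 := finite_mem (E := E) (x := (((max n B).factorial : ℕ) : 𝓞 E))
      (by exact_mod_cast (max n B).factorial_ne_zero)
    refine (hinf.sdiff h1).mono ?_
    rintro 𝔩 ⟨⟨r, hr⟩, h2⟩
    refine ⟨r, hr, ?_⟩
    by_contra hcon
    push Not at hcon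
    apply h2
    rw [Set.mem_ofPred_eq, ← hr, RingHom.mem_ker, map_natCast]
    have hpos : 0 < ringChar r.k := by
      rcases Nat.eq_zero_or_pos (ringChar r.k) with h | h
      · exfalso
        have : CharP r.k 0 := h ▸ ringChar.charP r.k
        have : CharZero r.k := CharP.charP_to_charZero r.k
        exact not_finite r.k
      · exact h
    exact (ringChar.spec r.k _).mpr (Nat.dvd_factorial hpos hcon)
  have hch : ∀ i : ι, ∃ r : Θ.ModRep, RingHom.ker r.φ = i.1.asIdeal ∧ max n B < ringChar r.k :=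
    fun i => i.2
  choose r hr1 hr2 using hch
  have hinj : Function.Injective fun i : ι => RingHom.ker (r i).φ := by
    intro i j hij
    have h1 : RingHom.ker (r i).φ = RingHom.ker (r j).φ := hij
    rw [hr1, hr1] at h1
    exact Subtype.ext (HeightOneSpectrum.ext h1)
  obtain ⟨i, R, hR, hR'⟩ := core Θ (E' := E') A N hN (fun m hm hmA => Nat.dvd_factorial hm hmA)
    hz.toInteger hz' r hinj (fun i => modRep_size Θ hn Y _ hη hY (r i)
      (lt_of_le_of_lt (le_max_left _ _) (hr2 i))) φ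
  refine ⟨ringChar (r i).k, ?_, lt_of_le_of_lt (le_max_right _ _) (hr2 i), R, hR, hR'⟩
  rcases CharP.char_is_prime_or_zero (r i).k (ringChar (r i).k) with h | h
  · exact h
  · exfalso
    have := hr2 i
    omega

/-- **Criterion (modular form).** -/
theorem of_modPrimes (Θ : HeckeSystem F E n) (hn : 0 < n) (hms : Θ.FewTraces)
    (hinf : Θ.modPrimes.Infinite) {K : Type} [Field K] [CharZero K] [IsAlgClosed K]
    (φ : 𝓞 E →+* K) :
    ∃ R : GK F →* GL (Fin n) K, IsOpen (R.ker : Set (GK F)) ∧ ∀ v ∉ Θ.S, Θ.Matches φ R v := by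
  obtain ⟨ℓ₁, hℓ₁, -, R₁, hR₁, hm₁⟩ := exists_large Θ hn hms hinf 0 φ
  obtain ⟨ℓ₂, hℓ₂, hlt, R₂, hR₂, hm₂⟩ := exists_large Θ hn hms hinf ℓ₁ φ
  exact ⟨R₁, hR₁, match_all Θ φ R₁ R₂ hR₁ hR₂ ℓ₁ ℓ₂ hℓ₁ hℓ₂ hlt.ne hm₁ hm₂⟩

/-- **Criterion (topological form): finite image.** -/
theorem finite_of_adic (Θ : HeckeSystem F E n) (hn : 0 < n) (hms : Θ.FewTraces)
    {k : Type} [Field k] [CharZero k] [TopologicalSpace k] [IsTopologicalRing k] [T2Space k]
    (φ : 𝓞 E →+* k) (ρ : GK F →* GL (Fin n) k)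
    (hc : Continuous fun σ => (ρ σ : Matrix (Fin n) (Fin n) k)) (hs : Semis ρ)
    (hfin : {v | ¬ Θ.Matches φ ρ v}.Finite) :
    Finite ρ.range ∧ IsOpen (ρ.ker : Set (GK F)) := by
  classical
  obtain ⟨Y, η, hη, hY⟩ := hms
  have hker : IsClosed (ρ.ker : Set (GK F)) := by
    have h1 : (ρ.ker : Set (GK F)) =
        (fun σ => (ρ σ : Matrix (Fin n) (Fin n) k)) ⁻¹' {(1 : Matrix (Fin n) (Fin n) k)} := by
      ext σ
      change σ ∈ ρ.ker ↔ (ρ σ : Matrix (Fin n) (Fin n) k) = 1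
      rw [MonoidHom.mem_ker, Units.val_eq_one]
    rw [h1]
    exact isClosed_singleton.preimage hc
  have h := size Θ hn Y _ hη hY (fun m hm _ => by exact_mod_cast hm.ne') φ ρ hs
    (fun Y' => by
      have h1 : {σ : GK F | (ρ σ : Matrix (Fin n) (Fin n) k).trace ∈ Y'} =
        (fun σ => (ρ σ : Matrix (Fin n) (Fin n) k).trace) ⁻¹' (Y' : Set k) := rfl
      rw [h1]
      exact (Y'.finite_toSet.isClosed).preimage hc.matrix_trace) hker hfin
  have hfr := h.1
  refine ⟨h.1, ?_⟩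
  have : ρ.ker.FiniteIndex := by
    have h2 : Finite (GK F ⧸ ρ.ker) :=
      Finite.of_equiv _ (QuotientGroup.quotientKerEquivRange ρ).symm.toEquiv
    exact Subgroup.finiteIndex_of_finite_quotient
  exact Subgroup.isOpen_of_isClosed_of_finiteIndex _ hker

/-- transfer of the realisation to another coefficient field -/
theorem matches_transfer (Θ : HeckeSystem F E n) {k : Type} [Field k] [CharZero k] (φ : 𝓞 E →+* k)
    (ρ : GK F →* GL (Fin n) k) (hfin : Finite ρ.range) (hopen : IsOpen (ρ.ker : Set (GK F)))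
    {K : Type} [Field K] [CharZero K] [IsAlgClosed K] (φ' : 𝓞 E →+* K) :
    ∃ R : GK F →* GL (Fin n) K, IsOpen (R.ker : Set (GK F)) ∧
      ∀ v, Θ.Matches φ ρ v → Θ.Matches φ' R v := by
  obtain ⟨R, hR, hR'⟩ := transfer φ φ' ρ hfin
  refine ⟨R, Subgroup.isOpen_mono hR hopen, fun v hv => ⟨fun τ hτ => ?_, fun σ hσ => ?_⟩⟩
  · exact MonoidHom.mem_ker.mp (hR (MonoidHom.mem_ker.mpr (hv.1 τ hτ)))
  · exact hR' σ _ (hv.2 σ hσ)

end Run7.h427.DS
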