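import Mathlib

/-!
# Extension of homomorphisms, matrices of finite order, reduction of roots of unity
-/

set_option autoImplicit false

namespace Run7.h427.DS

open NumberField Polynomial Matrix

/-- Extension of a homomorphism with maximal kernel along an integral extension. -/
theorem exists_ext {A B Ω : Type*} [CommRing A] [CommRing B] [Algebra A B] [Algebra.IsIntegral A B]
    [Field Ω] [IsAlgClosed Ω] (hinj : Function.Injective (algebraMap A B)) (f : A →+* Ω)
    (hmax : (RingHom.ker f).IsMaximal) :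
    ∃ g : B →+* Ω, ∀ a, g (algebraMap A B a) = f a := by
  obtain ⟨Q, hQ, hQP⟩ := Ideal.exists_ideal_over_maximal_of_isIntegral (S := B) (RingHom.ker f) (by
    rw [(RingHom.injective_iff_ker_eq_bot _).mp hinj]; exact bot_le)
  let _ : Field (B ⧸ Q) := Ideal.Quotient.field Q
  let _ : Field (A ⧸ RingHom.ker f) := Ideal.Quotient.field _
  let θ : (A ⧸ RingHom.ker f) →+* B ⧸ Q := Ideal.quotientMap Q (algebraMap A B) hQP.ge
  have hθ : ∀ a, θ (Ideal.Quotient.mk _ a) = Ideal.Quotient.mk Q (algebraMap A B a) := fun a =>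
    Ideal.quotientMap_mk
  let _ : Algebra (A ⧸ RingHom.ker f) (B ⧸ Q) := θ.toAlgebra
  let fbar : (A ⧸ RingHom.ker f) →+* Ω := RingHom.kerLift f
  let _ : Algebra (A ⧸ RingHom.ker f) Ω := fbar.toAlgebra
  have halg : Algebra.IsAlgebraic (A ⧸ RingHom.ker f) (B ⧸ Q) := by
    constructor
    intro y
    obtain ⟨b, rfl⟩ := Ideal.Quotient.mk_surjective y
    obtain ⟨q, hq, hq'⟩ := Algebra.IsIntegral.isIntegral (R := A) b
    apply IsIntegral.isAlgebraic
    refine ⟨q.map (Ideal.Quotient.mk _), hq.map _, ?_⟩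
    rw [eval₂_map]
    have h3 : (algebraMap (A ⧸ RingHom.ker f) (B ⧸ Q)).comp (Ideal.Quotient.mk _) =
        (Ideal.Quotient.mk Q).comp (algebraMap A B) := RingHom.ext hθ
    rw [h3, ← hom_eval₂, hq', map_zero]
  let ℓ : (B ⧸ Q) →ₐ[A ⧸ RingHom.ker f] Ω := IsAlgClosed.lift
  refine ⟨(ℓ : (B ⧸ Q) →+* Ω).comp (Ideal.Quotient.mk Q), fun a => ?_⟩
  rw [RingHom.comp_apply, ← hθ]
  exact ℓ.commutes (Ideal.Quotient.mk _ a)

/-- A unipotent matrix of finite order over a field of characteristic zero is trivial. -/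
theorem unipotent_finite {K : Type*} [Field K] [CharZero K] {n : ℕ} (M : Matrix (Fin n) (Fin n) K)
    (m : ℕ) (hm : 0 < m) (hM : M ^ m = 1)
    (hc : M.charpoly = (1 : Matrix (Fin n) (Fin n) K).charpoly) : M = 1 := by
  have h1 : (1 : Matrix (Fin n) (Fin n) K).charpoly = (X - C (1 : K)) ^ n := by
    rw [Matrix.charpoly_one, Fintype.card_fin, map_one]
  have h2 : (X - C (1 : K)) ∣ (X ^ m - 1 : K[X]) := by
    rw [dvd_iff_isRoot]
    simp
  obtain ⟨h, hh⟩ := h2
  have hirr : Irreducible (X - C (1 : K)) := irreducible_X_sub_C 1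
  have hcop : IsCoprime (X - C (1 : K)) h := by
    rw [hirr.coprime_iff_not_dvd]
    rintro ⟨h', hh'⟩
    have h3 := congrArg (fun p : K[X] => eval 1 (derivative p)) hh
    rw [hh'] at h3
    simp [derivative_X_pow] at h3
    exact hm.ne' h3
  obtain ⟨u, w, huw⟩ := hcop.pow_left (m := n)
  have h4 : aeval M ((X - C (1 : K)) * (u * (X - C (1 : K)) ^ n + w * h)) = M - 1 := by
    rw [huw, mul_one, map_sub, aeval_X, aeval_C, map_one]
  have h5 : (X - C (1 : K)) * (u * (X - C (1 : K)) ^ n + w * h) =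
      ((X - C (1 : K)) * u) * M.charpoly + w * (X ^ m - 1) := by
    rw [hc, h1, hh]
    ring
  rw [h5, map_add, map_mul, Matrix.aeval_self_charpoly, mul_zero, zero_add, map_mul, map_sub, map_pow,
    aeval_X, hM, map_one, sub_self, mul_zero] at h4
  exact (sub_eq_zero.mp h4.symm)

/-- products of linear factors at roots of unity -/
noncomputable def PP {R : Type*} [CommRing R] (N n : ℕ) (s : Sym {z : R // z ^ N = 1} n) : R[X] :=
  (s.1.map fun z : {z : R // z ^ N = 1} => X - C z.1).prod

/-- the eigenvalues of a matrix of finite order are roots of unity -/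
theorem root_pow {Ω : Type*} [Field Ω] {n : ℕ} (M : Matrix (Fin n) (Fin n) Ω) (N : ℕ)
    (hM : M ^ N = 1) (a : Ω) (ha : M.charpoly.IsRoot a) : a ^ N = 1 := by
  have h1 : Module.End.HasEigenvalue (Matrix.toLin' M) a := by
    rw [Module.End.hasEigenvalue_iff_isRoot_charpoly, Matrix.charpoly_toLin']
    exact ha
  obtain ⟨v, hv⟩ := h1.exists_hasEigenvector
  have h2 := hv.pow_apply N
  rw [← Matrix.toLin'_pow, hM, Matrix.toLin'_one, LinearMap.id_apply] at h2
  have h3 : (a ^ N - 1) • v = 0 := by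
    rw [sub_smul, one_smul, ← h2, sub_self]
  rcases smul_eq_zero.mp h3 with h | h
  · exact sub_eq_zero.mp h
  · exact absurd h hv.2

/-- **Characteristic polynomials of matrices of finite order** are reductions of products of linear
factors at roots of unity. -/
theorem exists_PP {R Ω : Type*} [CommRing R] [IsDomain R] [Field Ω] [IsAlgClosed Ω] {N : ℕ}
    (hN : 0 < N) {ζ : R} (hζ : IsPrimitiveRoot ζ N) (f : R →+* Ω) {n : ℕ}
    (M : Matrix (Fin n) (Fin n) Ω) (hM : M ^ N = 1) :
    ∃ s : Sym {z : R // z ^ N = 1} n, M.charpoly = (PP N n s).map f := by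
  classical
  have hpre : ∀ a : Ω, a ^ N = 1 → ∃ z : {z : R // z ^ N = 1}, f z = a := by
    intro a ha
    have h1 := congrArg (fun p : R[X] => (p.map f).eval a) (X_pow_sub_one_eq_prod hN hζ)
    simp only [Polynomial.map_sub, Polynomial.map_pow, map_X, Polynomial.map_one, eval_sub, eval_pow,
      eval_X, eval_one, ha, sub_self, Polynomial.map_prod, map_C, eval_prod, eval_C] at h1
    obtain ⟨z, hz, hz'⟩ := Finset.prod_eq_zero_iff.mp h1.symm
    refine ⟨⟨z, (mem_nthRootsFinset hN 1).mp hz⟩, ?_⟩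
    exact (sub_eq_zero.mp hz').symm
  let h : Ω → {z : R // z ^ N = 1} := fun a =>
    if ha : a ^ N = 1 then (hpre a ha).choose else ⟨1, one_pow N⟩
  have hh : ∀ a, a ^ N = 1 → f (h a) = a := by
    intro a ha
    change f (if ha : a ^ N = 1 then (hpre a ha).choose else ⟨1, one_pow N⟩ : {z : R // z ^ N = 1}) = a
    rw [dif_pos ha]
    exact (hpre a ha).choose_spec
  have hsp : M.charpoly.Splits := IsAlgClosed.splits _
  have hcard : M.charpoly.roots.card = n := by
    have h2 := hsp.natDegree_eq_card_roots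
    rw [Matrix.charpoly_natDegree_eq_dim, Fintype.card_fin] at h2
    exact h2.symm
  refine ⟨⟨M.charpoly.roots.map h, by rw [Multiset.card_map, hcard]⟩, ?_⟩
  have h1 := hsp.eq_prod_roots_of_monic M.charpoly_monic
  rw [PP, Polynomial.map_multiset_prod, Multiset.map_map]
  nth_rewrite 1 [h1]
  change _ = ((M.charpoly.roots.map h).map _).prod
  rw [Multiset.map_map]
  congr 1
  apply Multiset.map_congr rfl
  intro a ha
  have ha' : M.charpoly.IsRoot a := (mem_roots'.mp ha).2
  simp only [Function.comp_apply, Polynomial.map_sub, map_X, map_C]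
  rw [hh a (root_pow M N hM a ha')]

end Run7.h427.DS
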