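import Pool.Agent.Run7.h427.DS.Size
import Pool.Agent.Run7.h427.DS.Lift
import Pool.Agent.Run7.h427.DS.Ext

/-!
# From representations modulo infinitely many primes, with images of bounded order, to characteristic
zero
-/

set_option autoImplicit false

namespace Run7.h427.DS

open Topology Filter NumberField IsDedekindDomain Polynomial
open Pool.Agent.W401.Cheb Pool.Agent.W528.Ord
open scoped Matrix

section frob

variable {F : Type} [Field F] [NumberField F]

/-- there are Frobenius elements in every admissible set, at primes outside a given finite set -/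
theorem exists_frob_outside (U : Subgroup (GK F)) [U.Normal] (hU : IsOpen (U : Set (GK F)))
    (C : Set (GK F)) (hC : ∀ σ ∈ C, ∀ τ : GK F, τ * σ * τ⁻¹ ∈ C) (hCU : ∀ σ ∈ C, ∀ u ∈ U, σ * u ∈ C)
    (hne : C.Nonempty) (B : Set (HeightOneSpectrum (𝓞 F))) (hB : B.Finite) :
    ∃ v ∉ B, ∃ σ ∈ C, IsFrob v σ := by
  by_contra hcon
  push Not at hcon
  have h1 := chebK F U hU C hC hCU
  have h2 := dens_finite B hB
  have h3 := le_of_tendsto_of_tendsto' h1 h2 fun N => dens_mono (fun v hv => by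
    by_contra hvB
    obtain ⟨σ, hσ, hσv⟩ := hv
    exact hcon v hvB σ hσ hσv) N
  have hfin : Finite (GK F ⧸ U) := Subgroup.quotient_finite_of_isOpen U hU
  have h4 : 0 < ((QuotientGroup.mk : GK F → GK F ⧸ U) '' C).ncard := by
    rw [Set.ncard_pos (Set.toFinite _)]
    exact hne.image _
  have h5 : (0 : ℝ) < (Nat.card (GK F ⧸ U) : ℝ) := by exact_mod_cast Nat.card_pos
  have h6 : (0 : ℝ) < (((QuotientGroup.mk : GK F → GK F ⧸ U) '' C).ncard : ℝ) /
      (Nat.card (GK F ⧸ U) : ℝ) := div_pos (by exact_mod_cast h4) h5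
  linarith

/-- the characteristic polynomials of two representations with open kernels agree if they agree at
the Frobenius elements of almost all primes -/
theorem charpoly_eq {n : ℕ} {K : Type} [Field K] (R₁ R₂ : GK F →* GL (Fin n) K)
    (h₁ : IsOpen (R₁.ker : Set (GK F))) (h₂ : IsOpen (R₂.ker : Set (GK F)))
    (B : Set (HeightOneSpectrum (𝓞 F))) (hB : B.Finite)
    (h : ∀ v ∉ B, ∀ σ, IsFrob v σ → (R₁ σ : Matrix (Fin n) (Fin n) K).charpoly =
      (R₂ σ : Matrix (Fin n) (Fin n) K).charpoly) (σ : GK F) :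
    (R₁ σ : Matrix (Fin n) (Fin n) K).charpoly = (R₂ σ : Matrix (Fin n) (Fin n) K).charpoly := by
  let C : Set (GK F) := {τ | (R₁ τ : Matrix (Fin n) (Fin n) K).charpoly =
    (R₁ σ : Matrix (Fin n) (Fin n) K).charpoly ∧ (R₂ τ : Matrix (Fin n) (Fin n) K).charpoly =
    (R₂ σ : Matrix (Fin n) (Fin n) K).charpoly}
  have hcj : ∀ (R : GK F →* GL (Fin n) K) (a b : GK F),
      (R (b * a * b⁻¹) : Matrix (Fin n) (Fin n) K).charpoly =
        (R a : Matrix (Fin n) (Fin n) K).charpoly := by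
    intro R a b
    have h2 : (R (b * a * b⁻¹) : Matrix (Fin n) (Fin n) K) =
        (R b : Matrix (Fin n) (Fin n) K) * (R a : Matrix (Fin n) (Fin n) K) *
          ((R b)⁻¹ : GL (Fin n) K) := by
      rw [map_mul, map_mul, map_inv, Units.val_mul, Units.val_mul]
    rw [h2, Matrix.charpoly_mul_comm, ← mul_assoc, ← Units.val_mul, inv_mul_cancel, Units.val_one,
      one_mul]
  have hmu : ∀ (R : GK F →* GL (Fin n) K) (a u : GK F), u ∈ R.ker → R (a * u) = R a := by
    intro R a u hu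
    rw [map_mul, MonoidHom.mem_ker.mp hu, mul_one]
  obtain ⟨v, hv, τ, hτ, hτv⟩ := exists_frob_outside (R₁.ker ⊓ R₂.ker)
    (by rw [Subgroup.coe_inf]; exact h₁.inter h₂) C
    (fun a ha b => ⟨by rw [hcj]; exact ha.1, by rw [hcj]; exact ha.2⟩)
    (fun a ha u hu => ⟨by rw [hmu R₁ a u hu.1]; exact ha.1, by rw [hmu R₂ a u hu.2]; exact ha.2⟩)
    ⟨σ, rfl, rfl⟩ B hB
  rw [← hτ.1, ← hτ.2]
  exact h v hv τ hτv

end frob

variable {F E : Type} [Field F] [NumberField F] [Field E] [NumberField E] {n : ℕ}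

/-- combination of two representations which match at complementary sets of primes -/
theorem match_all (Θ : HeckeSystem F E n) {K : Type} [Field K] [CharZero K] (φ : 𝓞 E →+* K)
    (R₁ R₂ : GK F →* GL (Fin n) K)
    (h₁ : IsOpen (R₁.ker : Set (GK F))) (h₂ : IsOpen (R₂.ker : Set (GK F))) (ℓ₁ ℓ₂ : ℕ)
    (hℓ₁ : ℓ₁.Prime) (hℓ₂ : ℓ₂.Prime) (hne : ℓ₁ ≠ ℓ₂)
    (hm₁ : ∀ v ∉ Θ.S, ((ℓ₁ : ℕ) : 𝓞 F) ∉ v.asIdeal → Θ.Matches φ R₁ v)
    (hm₂ : ∀ v ∉ Θ.S, ((ℓ₂ : ℕ) : 𝓞 F) ∉ v.asIdeal → Θ.Matches φ R₂ v) :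
    ∀ v ∉ Θ.S, Θ.Matches φ R₁ v := by
  have hch := charpoly_eq R₁ R₂ h₁ h₂
    (Θ.S ∪ ({v | ((ℓ₁ : ℕ) : 𝓞 F) ∈ v.asIdeal} ∪ {v | ((ℓ₂ : ℕ) : 𝓞 F) ∈ v.asIdeal}))
    (Θ.finite_S.union ((Pool.Agent.W352.ChAbs.over_le (K := F) _ hℓ₁).1.union
      (Pool.Agent.W352.ChAbs.over_le (K := F) _ hℓ₂).1)) (by
    intro v hv σ hσ
    simp only [Set.mem_union, Set.mem_ofPred_eq, not_or] at hv
    rw [(hm₁ v hv.1 hv.2.1).2 σ hσ, (hm₂ v hv.1 hv.2.2).2 σ hσ])
  intro v hv
  by_cases hv₁ : ((ℓ₁ : ℕ) : 𝓞 F) ∈ v.asIdeal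
  · have hv₂ : ((ℓ₂ : ℕ) : 𝓞 F) ∉ v.asIdeal := by
      intro hv₂
      have hcop : IsCoprime (ℓ₁ : ℤ) (ℓ₂ : ℤ) :=
        Nat.isCoprime_iff_coprime.mpr ((Nat.coprime_primes hℓ₁ hℓ₂).mpr hne)
      obtain ⟨a, b, hab⟩ := hcop
      apply v.isPrime.ne_top
      rw [Ideal.eq_top_iff_one]
      have h3 : (1 : 𝓞 F) = (a : 𝓞 F) * (ℓ₁ : 𝓞 F) + (b : 𝓞 F) * (ℓ₂ : 𝓞 F) := by
        exact_mod_cast (congrArg (Int.cast : ℤ → 𝓞 F) hab).symm
      rw [h3]
      exact v.asIdeal.add_mem (v.asIdeal.mul_mem_left _ hv₁) (v.asIdeal.mul_mem_left _ hv₂)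
    have hm := hm₂ v hv hv₂
    refine ⟨fun τ hτ => ?_, fun σ hσ => by rw [hch, hm.2 σ hσ]⟩
    have h3 : (R₁ τ : Matrix (Fin n) (Fin n) K).charpoly =
        (1 : Matrix (Fin n) (Fin n) K).charpoly := by
      rw [hch, hm.1 τ hτ, Units.val_one]
    have hfin : Finite (GK F ⧸ R₁.ker) := Subgroup.quotient_finite_of_isOpen _ h₁
    have h4 : (R₁ τ) ^ Nat.card (GK F ⧸ R₁.ker) = 1 := by
      have h5 : (QuotientGroup.mk τ : GK F ⧸ R₁.ker) ^ Nat.card (GK F ⧸ R₁.ker) = 1 := pow_card_eq_one'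
      rw [← QuotientGroup.mk_pow, QuotientGroup.eq_one_iff] at h5
      rw [← map_pow]
      exact h5
    apply Units.ext
    rw [Units.val_one]
    refine unipotent_finite _ (Nat.card (GK F ⧸ R₁.ker)) Nat.card_pos ?_ h3
    rw [← Units.val_pow_eq_pow_val, h4, Units.val_one]
  · exact hm₁ v hv hv₁

theorem ker_isMaximal (Θ : HeckeSystem F E n) (r : Θ.ModRep) : (RingHom.ker r.φ).IsMaximal ∧
    RingHom.ker r.φ ≠ ⊥ := by
  have hp : (ringChar r.k).Prime := by
    rcases CharP.char_is_prime_or_zero r.k (ringChar r.k) with h | h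
    · exact h
    · exfalso
      have : CharP r.k 0 := h ▸ ringChar.charP r.k
      have : CharZero r.k := CharP.charP_to_charZero r.k
      exact not_finite r.k
  have h0 : RingHom.ker r.φ ≠ ⊥ := by
    intro h
    have h1 : ((ringChar r.k : ℕ) : 𝓞 E) ∈ RingHom.ker r.φ := by
      rw [RingHom.mem_ker, map_natCast]
      exact ringChar.Nat.cast_ringChar
    rw [h, Ideal.mem_bot] at h1
    have h2 : ringChar r.k = 0 := by exact_mod_cast h1
    exact hp.ne_zero h2
  have hprime : (RingHom.ker r.φ).IsPrime := RingHom.ker_isPrime r.φ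
  exact ⟨hprime.isMaximal h0, h0⟩

/-- **Core.** -/
theorem core (Θ : HeckeSystem F E n) {E' : Type} [Field E'] [NumberField E'] [Algebra E E']
    (A N : ℕ) (hN : 0 < N) (hdvd : ∀ m : ℕ, 0 < m → m ≤ A → m ∣ N) (ζ : 𝓞 E')
    (hζ : IsPrimitiveRoot ζ N) {ι : Type} [Infinite ι] (r : ι → Θ.ModRep)
    (hinj : Function.Injective fun i => RingHom.ker (r i).φ)
    (hsize : ∀ i, Finite (r i).ρ.range ∧ Nat.card (r i).ρ.range ≤ A)
    {K : Type} [Field K] [CharZero K] [IsAlgClosed K] (φ : 𝓞 E →+* K) :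
    ∃ (i : ι) (R : GK F →* GL (Fin n) K), IsOpen (R.ker : Set (GK F)) ∧
      ∀ v ∉ Θ.S, ((ringChar (r i).k : ℕ) : 𝓞 F) ∉ v.asIdeal → Θ.Matches φ R v := by
  classical
  have hfinr : ∀ i, Finite (r i).ρ.range := fun i => (hsize i).1
  have hAinj : Function.Injective (algebraMap (𝓞 E) (𝓞 E')) :=
    FaithfulSMul.algebraMap_injective (𝓞 E) (𝓞 E')
  -- the coefficient homomorphisms
  have hext : ∀ i, ∃ g : 𝓞 E' →+* AlgebraicClosure (r i).k, ∀ a, g (algebraMap (𝓞 E) (𝓞 E') a) =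
      algebraMap (r i).k (AlgebraicClosure (r i).k) ((r i).φ a) := by
    intro i
    have hk : RingHom.ker ((algebraMap (r i).k (AlgebraicClosure (r i).k)).comp (r i).φ) =
        RingHom.ker (r i).φ := by
      ext x
      rw [RingHom.mem_ker, RingHom.mem_ker, RingHom.comp_apply,
        map_eq_zero_iff _ (algebraMap (r i).k (AlgebraicClosure (r i).k)).injective]
    exact exists_ext hAinj ((algebraMap (r i).k (AlgebraicClosure (r i).k)).comp (r i).φ)
      (by rw [hk]; exact (ker_isMaximal Θ (r i)).1)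
  choose φ' hφ' using hext
  -- nonzero integers of `E'` have nonzero image for almost all indices
  have hφfin : ∀ x : 𝓞 E', x ≠ 0 → {i | φ' i x = 0}.Finite := by
    intro x hx
    have hcomap : ∀ i, (RingHom.ker (φ' i)).comap (algebraMap (𝓞 E) (𝓞 E')) =
        RingHom.ker (r i).φ := by
      intro i
      ext y
      rw [Ideal.mem_comap, RingHom.mem_ker, hφ', RingHom.mem_ker,
        map_eq_zero_iff _ (algebraMap (r i).k (AlgebraicClosure (r i).k)).injective]
    have hprime : ∀ i, (RingHom.ker (φ' i)).IsPrime := fun i => RingHom.ker_isPrime _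
    have hne : ∀ i, RingHom.ker (φ' i) ≠ ⊥ := by
      intro i h
      apply (ker_isMaximal Θ (r i)).2
      rw [← hcomap, h, eq_bot_iff]
      intro y hy
      rw [Ideal.mem_comap, Ideal.mem_bot] at hy
      rw [Ideal.mem_bot]
      exact hAinj (by rw [hy, map_zero])
    let v : ι → HeightOneSpectrum (𝓞 E') := fun i => ⟨RingHom.ker (φ' i), hprime i, hne i⟩
    have hvinj : Function.Injective v := by
      intro i j hij
      apply hinj
      have h1 : RingHom.ker (φ' i) = RingHom.ker (φ' j) := congrArg HeightOneSpectrum.asIdeal hij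
      change RingHom.ker (r i).φ = RingHom.ker (r j).φ
      rw [← hcomap, ← hcomap, h1]
    have hfac : {w : HeightOneSpectrum (𝓞 E') | w.asIdeal ∣ Ideal.span {x}}.Finite :=
      Ideal.finite_factors (by rw [Ne, Ideal.zero_eq_bot, Ideal.span_singleton_eq_bot]; exact hx)
    refine Set.Finite.of_finite_image (f := v) (hfac.subset ?_) hvinj.injOn
    rintro _ ⟨i, hi, rfl⟩
    change RingHom.ker (φ' i) ∣ Ideal.span {x}
    rw [Ideal.dvd_span_singleton]
    exact hi
  have hpoly : ∀ P Q : (𝓞 E')[X], P ≠ Q → {i | P.map (φ' i) = Q.map (φ' i)}.Finite := by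
    intro P Q hPQ
    obtain ⟨m, hm⟩ : ∃ m, P.coeff m ≠ Q.coeff m := by
      by_contra hcon
      push Not at hcon
      exact hPQ (Polynomial.ext hcon)
    refine (hφfin (P.coeff m - Q.coeff m) (sub_ne_zero.mpr hm)).subset fun i hi => ?_
    have h1 := congrArg (fun p => Polynomial.coeff p m) hi
    simp only [coeff_map] at h1
    change φ' i (P.coeff m - Q.coeff m) = 0
    rw [map_sub, h1, sub_self]
  -- few indices have a given characteristic
  have hcharfin : ∀ v : HeightOneSpectrum (𝓞 F),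
      {i | ((ringChar (r i).k : ℕ) : 𝓞 F) ∈ v.asIdeal}.Finite := by
    intro v
    rcases Set.eq_empty_or_nonempty {i | ((ringChar (r i).k : ℕ) : 𝓞 F) ∈ v.asIdeal} with he | ⟨j, hj⟩
    · rw [he]; exact Set.finite_empty
    have hp : ∀ i, (ringChar (r i).k).Prime := by
      intro i
      rcases CharP.char_is_prime_or_zero (r i).k (ringChar (r i).k) with h | h
      · exact h
      · exfalso
        have : CharP (r i).k 0 := h ▸ ringChar.charP (r i).k
        have : CharZero (r i).k := CharP.charP_to_charZero (r i).k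
        exact not_finite (r i).k
    refine (hφfin ((ringChar (r j).k : ℕ) : 𝓞 E') (by exact_mod_cast (hp j).ne_zero)).subset ?_
    intro i hi
    have h1 : ringChar (r i).k = ringChar (r j).k := by
      by_contra hne
      have hcop : IsCoprime (ringChar (r i).k : ℤ) (ringChar (r j).k : ℤ) :=
        Nat.isCoprime_iff_coprime.mpr ((Nat.coprime_primes (hp i) (hp j)).mpr hne)
      obtain ⟨a, b, hab⟩ := hcop
      apply v.isPrime.ne_top
      rw [Ideal.eq_top_iff_one]
      have h3 : (1 : 𝓞 F) = (a : 𝓞 F) * ((ringChar (r i).k : ℕ) : 𝓞 F) +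
          (b : 𝓞 F) * ((ringChar (r j).k : ℕ) : 𝓞 F) := by
        exact_mod_cast (congrArg (Int.cast : ℤ → 𝓞 F) hab).symm
      rw [h3]
      exact v.asIdeal.add_mem (v.asIdeal.mul_mem_left _ hi) (v.asIdeal.mul_mem_left _ hj)
    change φ' i ((ringChar (r j).k : ℕ) : 𝓞 E') = 0
    rw [map_natCast, ← h1, ← map_natCast (algebraMap (r i).k (AlgebraicClosure (r i).k)),
      ringChar.Nat.cast_ringChar, map_zero]
  -- the characteristic polynomials
  let gl : ∀ i, GL (Fin n) (r i).k →* GL (Fin n) (AlgebraicClosure (r i).k) := fun i =>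
    Matrix.GeneralLinearGroup.map (algebraMap (r i).k (AlgebraicClosure (r i).k))
  have hgl : ∀ i (x : GL (Fin n) (r i).k),
      (gl i x : Matrix (Fin n) (Fin n) (AlgebraicClosure (r i).k)).charpoly =
        (x : Matrix (Fin n) (Fin n) (r i).k).charpoly.map
          (algebraMap (r i).k (AlgebraicClosure (r i).k)) := by
    intro i x
    rw [← Matrix.charpoly_map]
    rfl
  let R' : Type := {z : 𝓞 E' // z ^ N = 1}
  have hR' : Finite R' := by
    have h1 : {z : 𝓞 E' | z ^ N = 1}.Finite := by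
      refine (Polynomial.nthRootsFinset N (1 : 𝓞 E')).finite_toSet.subset fun z hz => ?_
      rw [Finset.mem_coe, mem_nthRootsFinset hN]
      exact hz
    exact h1.to_subtype
  have := Fintype.ofFinite R'
  have hex : ∀ i (x : (r i).ρ.range), ∃ s : Sym R' n,
      (gl i x : Matrix (Fin n) (Fin n) (AlgebraicClosure (r i).k)).charpoly =
        (PP N n s).map (φ' i) := by
    intro i x
    apply exists_PP hN hζ
    have h1 : x ^ Nat.card (r i).ρ.range = 1 := pow_card_eq_one'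
    obtain ⟨c, hc⟩ := hdvd _ Nat.card_pos (hsize i).2
    have h2 : x ^ N = 1 := by rw [hc, pow_mul, h1, one_pow]
    have h3 : (x : GL (Fin n) (r i).k) ^ N = 1 := by
      have := congrArg (Subtype.val) h2
      exact this
    rw [← Units.val_pow_eq_pow_val, ← map_pow, h3, map_one, Units.val_one]
  choose s hs using hex
  -- the Hecke polynomials are products of linear factors at roots of unity
  have hT : ∀ v ∉ Θ.S, ∃ t : Sym R' n, (Θ.T v).map (algebraMap (𝓞 E) (𝓞 E')) = PP N n t := by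
    intro v hv
    obtain ⟨σ, hσ⟩ := Pool.Agent.W540.BE.exists_isFrob F v
    let J : Set ι := {i | ((ringChar (r i).k : ℕ) : 𝓞 F) ∈ v.asIdeal}ᶜ
    have hJ : J.Infinite := (hcharfin v).infinite_compl
    have hJi : Infinite J := hJ.to_subtype
    obtain ⟨t, ht⟩ := Finite.exists_infinite_fiber
      (fun i : J => s i.1 ⟨(r i.1).ρ σ, σ, rfl⟩)
    refine ⟨t, ?_⟩
    by_contra hne
    have h1 := hpoly _ _ hne
    have h2 : (Subtype.val '' ((fun i : J => s i.1 ⟨(r i.1).ρ σ, σ, rfl⟩) ⁻¹' {t})).Infinite :=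
      (Set.infinite_coe_iff.mp ht).image Subtype.val_injective.injOn
    apply h2
    refine h1.subset ?_
    rintro _ ⟨i, hi, rfl⟩
    have hm := (r i.1).match_of v hv i.2
    have h3 := hs i.1 ⟨(r i.1).ρ σ, σ, rfl⟩
    rw [hgl, hm.2 σ hσ] at h3
    have hi' : s i.1 ⟨(r i.1).ρ σ, σ, rfl⟩ = t := hi
    rw [hi'] at h3
    rw [Set.mem_ofPred_eq, ← h3, Polynomial.map_map, Polynomial.map_map]
    congr 1
    exact RingHom.ext (hφ' i.1)
  -- the finite data
  let D : Type := Σ m : Fin (A + 1), (Fin m → Fin m → Fin m) × (Fin m → Sym R' n)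
  have hDfin : Finite D := inferInstance
  let Good : ι → D → Prop := fun i y => ∃ e : (r i).ρ.range ≃ Fin y.1,
    (∀ a b, e (a * b) = y.2.1 (e a) (e b)) ∧ ∀ a, s i a = y.2.2 (e a)
  have hGood : ∀ i, ∃ y, Good i y := by
    intro i
    let e : (r i).ρ.range ≃ Fin (Nat.card (r i).ρ.range) := Finite.equivFin _
    refine ⟨⟨⟨Nat.card (r i).ρ.range, Nat.lt_succ_of_le (hsize i).2⟩,
      fun a b => e (e.symm a * e.symm b), fun a => s i (e.symm a)⟩, e, ?_, ?_⟩
    · intro a b
      change e (a * b) = e (e.symm (e a) * e.symm (e b))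
      rw [e.symm_apply_apply, e.symm_apply_apply]
    · intro a
      change s i a = s i (e.symm (e a))
      rw [e.symm_apply_apply]
  choose d hd using hGood
  obtain ⟨y, hy⟩ := Finite.exists_infinite_fiber d
  have hy' : (d ⁻¹' {y}).Infinite := Set.infinite_coe_iff.mp hy
  -- the reduction is injective on the relevant polynomials for almost all indices
  have hbad : {i | ∃ t t' : Sym R' n, PP N n t ≠ PP N n t' ∧
      (PP N n t).map (φ' i) = (PP N n t').map (φ' i)}.Finite := by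
    have h1 : (⋃ p : Sym R' n × Sym R' n, {i | PP N n p.1 ≠ PP N n p.2 ∧
        (PP N n p.1).map (φ' i) = (PP N n p.2).map (φ' i)}).Finite := by
      apply Set.finite_iUnion
      rintro ⟨t, t'⟩
      by_cases h : PP N n t = PP N n t'
      · refine Set.finite_empty.subset ?_
        rintro i ⟨h2, -⟩
        exact absurd h h2
      · exact (hpoly _ _ h).subset fun i hi => hi.2
    refine h1.subset ?_
    rintro i ⟨t, t', h2⟩
    exact Set.mem_iUnion.mpr ⟨(t, t'), h2⟩
  obtain ⟨i₁, hi₁, hi₁'⟩ := (hy'.sdiff hbad).nonempty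
  -- the isomorphisms
  have hdy : ∀ j : d ⁻¹' {y}, Good j.1 y := by
    rintro ⟨j, hj⟩
    have h1 : d j = y := hj
    have h2 := hd j
    rw [h1] at h2
    exact h2
  choose e he1 he2 using hdy
  let e₁ : (r i₁).ρ.range ≃ Fin y.1 := e ⟨i₁, hi₁⟩
  let θ : ∀ j : d ⁻¹' {y}, (r i₁).ρ.range →* (r j.1).ρ.range := fun j =>
    MonoidHom.mk' (fun g => (e j).symm (e₁ g)) (by
      intro a b
      apply (e j).injective
      rw [Equiv.apply_symm_apply, he1 j, Equiv.apply_symm_apply, Equiv.apply_symm_apply]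
      exact he1 ⟨i₁, hi₁⟩ a b)
  have hθ : ∀ j g, e j (θ j g) = e₁ g := fun j g => (e j).apply_symm_apply (e₁ g)
  -- the coefficient homomorphism to `K`
  obtain ⟨φK, hφK⟩ : ∃ φK : 𝓞 E' →+* K, ∀ a, φK (algebraMap (𝓞 E) (𝓞 E') a) = φ a := by
    let ε : E →+* K := IsFractionRing.lift (A := 𝓞 E) (injective_of_charZero φ)
    have hε : ∀ x : 𝓞 E, ε (algebraMap (𝓞 E) E x) = φ x := fun x => IsFractionRing.lift_algebraMap _ x
    let _ : Algebra E K := ε.toAlgebra
    let ψ : E' →ₐ[E] K := IsAlgClosed.lift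
    refine ⟨(ψ : E' →+* K).comp (algebraMap (𝓞 E') E'), fun a => ?_⟩
    rw [RingHom.comp_apply, ← IsScalarTower.algebraMap_apply (𝓞 E) (𝓞 E') E',
      IsScalarTower.algebraMap_apply (𝓞 E) E E']
    change ψ (algebraMap E E' _) = _
    rw [ψ.commutes]
    exact hε a
  have hfinG : Finite (r i₁).ρ.range := hfinr i₁
  obtain ⟨q, hq⟩ := lift (ι := d ⁻¹' {y}) (fun j => AlgebraicClosure (r j.1).k)
    (fun j => φ' j.1) (fun x hx => by
      refine Set.Finite.of_finite_image (f := Subtype.val) ((hφfin x hx).subset ?_)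
        Subtype.val_injective.injOn
      rintro _ ⟨j, hj, rfl⟩
      exact hj) (G := (r i₁).ρ.range)
    (fun j => ((gl j.1).comp (Subgroup.subtype _)).comp (θ j))
    (fun g => PP N n (y.2.2 (e₁ g))) (by
      intro j g
      have h1 := hs j.1 (θ j g)
      rw [he2 j (θ j g), hθ] at h1
      exact h1) φK
  refine ⟨i₁, q.comp (r i₁).ρ.rangeRestrict, ?_, ?_⟩
  · refine Subgroup.isOpen_mono (H₁ := (r i₁).ρ.ker) ?_ (r i₁).isOpen_ker
    intro σ hσ
    rw [MonoidHom.mem_ker] at hσ ⊢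
    have h1 : (r i₁).ρ.rangeRestrict σ = 1 := Subtype.ext hσ
    rw [MonoidHom.comp_apply, h1, map_one]
  · intro v hv hvℓ
    have hm := (r i₁).match_of v hv hvℓ
    refine ⟨fun τ hτ => ?_, fun σ hσ => ?_⟩
    · have h1 : (r i₁).ρ.rangeRestrict τ = 1 := Subtype.ext (hm.1 τ hτ)
      rw [MonoidHom.comp_apply, h1, map_one]
    · rw [MonoidHom.comp_apply, hq]
      obtain ⟨t, ht⟩ := hT v hv
      have h2 : s i₁ ((r i₁).ρ.rangeRestrict σ) = y.2.2 (e₁ ((r i₁).ρ.rangeRestrict σ)) :=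
        he2 ⟨i₁, hi₁⟩ _
      rw [← h2]
      have h3 : PP N n (s i₁ ((r i₁).ρ.rangeRestrict σ)) = PP N n t := by
        by_contra hne
        apply hi₁'
        refine ⟨_, _, hne, ?_⟩
        rw [← hs i₁, ← ht, hgl]
        have h4 : (((r i₁).ρ.rangeRestrict σ : (r i₁).ρ.range) : GL (Fin n) (r i₁).k) =
            (r i₁).ρ σ := rfl
        rw [h4, hm.2 σ hσ, Polynomial.map_map, Polynomial.map_map]
        congr 1
        exact (RingHom.ext (hφ' i₁)).symm
      rw [h3, ← ht, Polynomial.map_map]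
      congr 1
      exact RingHom.ext hφK

end Run7.h427.DS
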