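import Mathlib

/-!
# Semisimple matrix representations: the trace form on the linear span of the image

`Semis ρ`: every subspace stable under the image of `ρ` has a stable complement.  If the characteristic
is `0` or larger than `n`, an element of the span of `ρ (G)` whose products with all `ρ (g)` have
trace zero is zero (`rad_trace`); so there are `n ^ 2` elements `g_i` such that `ρ (x)` is determined by
the traces of `ρ (g_i x)` (`exists_test`).
-/

set_option autoImplicit false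

namespace Run7.h427.DS

open Matrix Polynomial

variable {G k : Type*} [Group G] [Field k] {n : ℕ}

/-- every stable subspace has a stable complement -/
def Semis (ρ : G →* GL (Fin n) k) : Prop :=
  ∀ W : Submodule k (Fin n → k), (∀ g, ∀ w ∈ W, (ρ g : Matrix (Fin n) (Fin n) k) *ᵥ w ∈ W) →
    ∃ W' : Submodule k (Fin n → k),
      (∀ g, ∀ w ∈ W', (ρ g : Matrix (Fin n) (Fin n) k) *ᵥ w ∈ W') ∧ IsCompl W W'

/-- the span of the image -/
def Asp (ρ : G →* GL (Fin n) k) : Submodule k (Matrix (Fin n) (Fin n) k) :=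
  Submodule.span k (Set.range fun g => (ρ g : Matrix (Fin n) (Fin n) k))

theorem mem_Asp (ρ : G →* GL (Fin n) k) (g : G) : (ρ g : Matrix (Fin n) (Fin n) k) ∈ Asp ρ :=
  Submodule.subset_span ⟨g, rfl⟩

theorem one_mem_Asp (ρ : G →* GL (Fin n) k) : (1 : Matrix (Fin n) (Fin n) k) ∈ Asp ρ := by
  have h := mem_Asp ρ 1
  rwa [map_one, Units.val_one] at h

theorem mul_mem_Asp (ρ : G →* GL (Fin n) k) {a b : Matrix (Fin n) (Fin n) k} (ha : a ∈ Asp ρ)
    (hb : b ∈ Asp ρ) : a * b ∈ Asp ρ := by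
  have h : ∀ g, ∀ b ∈ Asp ρ, (ρ g : Matrix (Fin n) (Fin n) k) * b ∈ Asp ρ := by
    intro g b hb
    induction hb using Submodule.span_induction with
    | mem x hx =>
      obtain ⟨g', rfl⟩ := hx
      have := mem_Asp ρ (g * g')
      rwa [map_mul, Units.val_mul] at this
    | zero => rw [mul_zero]; exact Submodule.zero_mem _
    | add x y _ _ hx hy => rw [mul_add]; exact Submodule.add_mem _ hx hy
    | smul c x _ hx => rw [mul_smul_comm]; exact Submodule.smul_mem _ _ hx
  induction ha using Submodule.span_induction with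
  | mem x hx =>
    obtain ⟨g, rfl⟩ := hx
    exact h g b hb
  | zero => rw [zero_mul]; exact Submodule.zero_mem _
  | add x y _ _ hx hy => rw [add_mul]; exact Submodule.add_mem _ hx hy
  | smul c x _ hx => rw [smul_mul_assoc]; exact Submodule.smul_mem _ _ hx

theorem pow_mem_Asp (ρ : G →* GL (Fin n) k) {a : Matrix (Fin n) (Fin n) k} (ha : a ∈ Asp ρ) (m : ℕ) :
    a ^ m ∈ Asp ρ := by
  induction m with
  | zero => rw [pow_zero]; exact one_mem_Asp ρ
  | succ m ih => rw [pow_succ]; exact mul_mem_Asp ρ ih ha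

theorem aeval_mem_Asp (ρ : G →* GL (Fin n) k) {a : Matrix (Fin n) (Fin n) k} (ha : a ∈ Asp ρ)
    (p : k[X]) : aeval a p ∈ Asp ρ := by
  rw [aeval_eq_sum_range]
  exact Submodule.sum_mem _ fun i _ => Submodule.smul_mem _ _ (pow_mem_Asp ρ ha i)

theorem stable_Asp (ρ : G →* GL (Fin n) k) (W : Submodule k (Fin n → k))
    (hW : ∀ g, ∀ w ∈ W, (ρ g : Matrix (Fin n) (Fin n) k) *ᵥ w ∈ W)
    {a : Matrix (Fin n) (Fin n) k} (ha : a ∈ Asp ρ) {w : Fin n → k} (hw : w ∈ W) : a *ᵥ w ∈ W := by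
  induction ha using Submodule.span_induction with
  | mem x hx =>
    obtain ⟨g, rfl⟩ := hx
    exact hW g w hw
  | zero => rw [Matrix.zero_mulVec]; exact Submodule.zero_mem _
  | add x y _ _ hx hy => rw [Matrix.add_mulVec]; exact Submodule.add_mem _ hx hy
  | smul c x _ hx => rw [Matrix.smul_mulVec]; exact Submodule.smul_mem _ _ hx

/-- the radical of the trace form -/
def Rad (ρ : G →* GL (Fin n) k) : Submodule k (Matrix (Fin n) (Fin n) k) where
  carrier := {a | a ∈ Asp ρ ∧ ∀ g, (a * (ρ g : Matrix (Fin n) (Fin n) k)).trace = 0}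
  zero_mem' := ⟨Submodule.zero_mem _, fun g => by rw [zero_mul, Matrix.trace_zero]⟩
  add_mem' := by
    rintro a b ⟨ha, ha'⟩ ⟨hb, hb'⟩
    exact ⟨Submodule.add_mem _ ha hb, fun g => by rw [add_mul, Matrix.trace_add, ha', hb', add_zero]⟩
  smul_mem' := by
    rintro c a ⟨ha, ha'⟩
    exact ⟨Submodule.smul_mem _ _ ha, fun g => by
      rw [smul_mul_assoc, Matrix.trace_smul, ha', smul_zero]⟩

theorem mem_Rad (ρ : G →* GL (Fin n) k) (a : Matrix (Fin n) (Fin n) k) :
    a ∈ Rad ρ ↔ a ∈ Asp ρ ∧ ∀ g, (a * (ρ g : Matrix (Fin n) (Fin n) k)).trace = 0 := Iff.rfl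

theorem Rad_trace (ρ : G →* GL (Fin n) k) {a : Matrix (Fin n) (Fin n) k} (ha : a ∈ Rad ρ) :
    a.trace = 0 := by
  have := ha.2 1
  rwa [map_one, Units.val_one, mul_one] at this

theorem Rad_mul_right (ρ : G →* GL (Fin n) k) {a b : Matrix (Fin n) (Fin n) k} (ha : a ∈ Rad ρ)
    (hb : b ∈ Asp ρ) : a * b ∈ Rad ρ := by
  induction hb using Submodule.span_induction with
  | mem x hx =>
    obtain ⟨g, rfl⟩ := hx
    refine ⟨mul_mem_Asp ρ ha.1 (mem_Asp ρ g), fun h => ?_⟩
    have := ha.2 (g * h)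
    rwa [map_mul, Units.val_mul, ← mul_assoc] at this
  | zero => rw [mul_zero]; exact Submodule.zero_mem _
  | add x y _ _ hx hy => rw [mul_add]; exact Submodule.add_mem _ hx hy
  | smul c x _ hx => rw [mul_smul_comm]; exact Submodule.smul_mem _ _ hx

theorem Rad_mul_left (ρ : G →* GL (Fin n) k) {a : Matrix (Fin n) (Fin n) k} (ha : a ∈ Rad ρ)
    (g : G) : (ρ g : Matrix (Fin n) (Fin n) k) * a ∈ Rad ρ := by
  refine ⟨mul_mem_Asp ρ (mem_Asp ρ g) ha.1, fun h => ?_⟩
  have := ha.2 (h * g)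
  rw [map_mul, Units.val_mul, ← mul_assoc, Matrix.trace_mul_comm] at this
  rw [mul_assoc]
  exact this

/-- An element of the radical does not fix a nonzero vector, in characteristic `0` or `> n`. -/
theorem Rad_no_fix (ρ : G →* GL (Fin n) k) (hk : ∀ m : ℕ, 0 < m → m ≤ n → (m : k) ≠ 0)
    {b : Matrix (Fin n) (Fin n) k} (hb : b ∈ Rad ρ) (w : Fin n → k) (hw : w ≠ 0)
    (hbw : b *ᵥ w = w) : False := by
  classical
  -- the characteristic polynomial has the root 1
  have hroot : b.charpoly.IsRoot 1 := by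
    have h1 : Module.End.HasEigenvalue (Matrix.toLin' b) 1 := by
      apply Module.End.hasEigenvalue_of_hasEigenvector (x := w)
      rw [Module.End.hasEigenvector_iff, Module.End.mem_eigenspace_iff, Matrix.toLin'_apply, one_smul]
      exact ⟨hbw, hw⟩
    have h2 := Module.End.hasEigenvalue_iff_isRoot_charpoly (Matrix.toLin' b) 1 |>.mp h1
    rwa [← Matrix.charpoly_toLin'] 
  set m := b.charpoly.rootMultiplicity 1 with hm
  have hχ0 : b.charpoly ≠ 0 := b.charpoly_monic.ne_zero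
  have hm0 : 0 < m := (Polynomial.rootMultiplicity_pos hχ0).mpr hroot
  obtain ⟨q, hq, hq'⟩ := Polynomial.exists_eq_pow_rootMultiplicity_mul_and_not_dvd b.charpoly hχ0 1
  have hirr : Irreducible (X - C (1 : k)) := Polynomial.irreducible_X_sub_C 1
  have hcop : IsCoprime ((X - C (1 : k)) ^ m) (X * q) := by
    apply IsCoprime.pow_left
    apply IsCoprime.mul_right
    · rw [hirr.coprime_iff_not_dvd, Polynomial.dvd_iff_isRoot]
      simp
    · rw [hirr.coprime_iff_not_dvd]
      exact hq'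
  obtain ⟨u, t, hut⟩ := hcop
  set e : Matrix (Fin n) (Fin n) k := aeval b (t * (X * q)) with he
  have he1 : e = 1 - aeval b (u * (X - C (1 : k)) ^ m) := by
    rw [eq_sub_iff_add_eq, he, ← map_add, add_comm, hut, map_one]
  have hee : e * e = e := by
    have h2 : e * aeval b (u * (X - C (1 : k)) ^ m) = 0 := by
      rw [he, ← map_mul]
      have h1 : t * (X * q) * (u * (X - C (1 : k)) ^ m) = (t * X * u) * b.charpoly := by
        rw [hq]
        ring
      rw [h1, map_mul (aeval b), Matrix.aeval_self_charpoly, mul_zero]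
    calc e * e = e * (1 - aeval b (u * (X - C (1 : k)) ^ m)) := by rw [← he1]
      _ = e := by rw [mul_sub, mul_one, h2, sub_zero]
  have hew : e *ᵥ w = w := by
    have h1 : (aeval b (u * (X - C (1 : k)) ^ m)) *ᵥ w = 0 := by
      obtain ⟨m', hm'⟩ : ∃ m', m = m' + 1 := ⟨m - 1, by omega⟩
      rw [hm', pow_succ, ← mul_assoc, map_mul, ← Matrix.mulVec_mulVec]
      have h2 : (aeval b (X - C (1 : k))) *ᵥ w = 0 := by
        rw [map_sub, aeval_X, aeval_C, map_one, Matrix.sub_mulVec, Matrix.one_mulVec, hbw, sub_self]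
      rw [h2, Matrix.mulVec_zero]
    rw [he1, Matrix.sub_mulVec, Matrix.one_mulVec, h1, sub_zero]
  have heR : e ∈ Rad ρ := by
    have h1 : e = b * aeval b (t * q) := by
      rw [he]
      have : t * (X * q) = X * (t * q) := by ring
      rw [this, map_mul, aeval_X]
    rw [h1]
    exact Rad_mul_right ρ hb (aeval_mem_Asp ρ hb.1 _)
  have htr : e.trace = 0 := Rad_trace ρ heR
  -- the trace is the rank
  have hid : IsIdempotentElem (Matrix.toLin' e) := by
    change Matrix.toLin' e * Matrix.toLin' e = Matrix.toLin' e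
    rw [Module.End.mul_eq_comp, ← Matrix.toLin'_mul, hee]
  have hproj : LinearMap.IsProj (LinearMap.range (Matrix.toLin' e)) (Matrix.toLin' e) := by
    refine ⟨fun x => ⟨x, rfl⟩, ?_⟩
    rintro x ⟨y, rfl⟩
    have := congrArg (fun f : Module.End k (Fin n → k) => f y) hid.eq
    exact this
  have htr2 : (Module.finrank k (LinearMap.range (Matrix.toLin' e)) : k) = 0 := by
    rw [← LinearMap.IsProj.trace hproj, Matrix.trace_toLin'_eq, htr]
  have hpos : 0 < Module.finrank k (LinearMap.range (Matrix.toLin' e)) := by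
    apply Module.finrank_pos_iff_exists_ne_zero.mpr
    refine ⟨⟨w, ⟨w, hew⟩⟩, ?_⟩
    intro h0
    exact hw (congrArg Subtype.val h0)
  have hle : Module.finrank k (LinearMap.range (Matrix.toLin' e)) ≤ n := by
    have := Submodule.finrank_le (LinearMap.range (Matrix.toLin' e))
    simpa using this
  exact hk _ hpos hle htr2

/-- the trace form on the span of the image of a semisimple representation is nondegenerate -/
theorem rad_trace (ρ : G →* GL (Fin n) k) (hs : Semis ρ)
    (hk : ∀ m : ℕ, 0 < m → m ≤ n → (m : k) ≠ 0)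
    (a : Matrix (Fin n) (Fin n) k) (ha : a ∈ Asp ρ)
    (hz : ∀ g, (a * (ρ g : Matrix (Fin n) (Fin n) k)).trace = 0) : a = 0 := by
  classical
  by_contra ha0
  -- a minimal stable subspace on which `a` is not zero
  let Sta : Set (Submodule k (Fin n → k)) :=
    {W | (∀ g, ∀ w ∈ W, (ρ g : Matrix (Fin n) (Fin n) k) *ᵥ w ∈ W) ∧ ∃ w ∈ W, a *ᵥ w ≠ 0}
  have hne : Sta.Nonempty := by
    refine ⟨⊤, fun _ _ _ => Submodule.mem_top, ?_⟩
    by_contra hcon
    push Not at hcon
    apply ha0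
    apply Matrix.toLin'.injective
    apply LinearMap.ext
    intro w
    rw [Matrix.toLin'_apply, map_zero, LinearMap.zero_apply]
    exact hcon w Submodule.mem_top
  obtain ⟨W, hW, hmin⟩ := WellFounded.has_min (wellFounded_lt (α := Submodule k (Fin n → k))) Sta hne
  obtain ⟨hst, w, hw, haw⟩ := hW
  -- it is simple
  have hsimple : ∀ W₁ : Submodule k (Fin n → k),
      (∀ g, ∀ w ∈ W₁, (ρ g : Matrix (Fin n) (Fin n) k) *ᵥ w ∈ W₁) → W₁ ≤ W → W₁ ≠ ⊥ → W₁ = W := by
    intro W₁ hW₁ hle hne1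
    by_contra hne2
    have h1 : ∀ w ∈ W₁, a *ᵥ w = 0 := by
      intro w' hw'
      by_contra hcon
      exact hmin W₁ ⟨hW₁, w', hw', hcon⟩ (lt_of_le_of_ne hle hne2)
    obtain ⟨W₂, hW₂, hcompl⟩ := hs W₁ hW₁
    have h2 : ∀ w ∈ W ⊓ W₂, a *ᵥ w = 0 := by
      intro w' hw'
      by_contra hcon
      refine hmin (W ⊓ W₂) ⟨fun g x hx => ⟨hst g x hx.1, hW₂ g x hx.2⟩, w', hw', hcon⟩ ?_
      refine lt_of_le_of_ne inf_le_left ?_
      intro h3
      have h4 : W ≤ W₂ := by rw [← h3]; exact inf_le_right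
      have h5 : W₁ ≤ ⊥ := by
        rw [← hcompl.inf_eq_bot]
        exact le_inf le_rfl (hle.trans h4)
      exact hne1 (le_bot_iff.mp h5)
    have h3 : w ∈ W₁ ⊔ (W ⊓ W₂) := by
      have h4 : W₁ ⊔ (W₂ ⊓ W) = (W₁ ⊔ W₂) ⊓ W := sup_inf_assoc_of_le W₂ hle |>.symm
      rw [inf_comm, h4, hcompl.sup_eq_top, top_inf_eq]
      exact hw
    obtain ⟨x, hx, y, hy, hxy⟩ := Submodule.mem_sup.mp h3
    apply haw
    rw [← hxy, Matrix.mulVec_add, h1 x hx, h2 y hy, add_zero]
  -- the radical applied to `w`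
  let Iw : Submodule k (Fin n → k) :=
    { carrier := {x | ∃ b ∈ Rad ρ, b *ᵥ w = x}
      zero_mem' := ⟨0, Submodule.zero_mem _, Matrix.zero_mulVec _⟩
      add_mem' := by
        rintro _ _ ⟨b, hb, rfl⟩ ⟨c, hc, rfl⟩
        exact ⟨b + c, Submodule.add_mem _ hb hc, Matrix.add_mulVec _ _ _⟩
      smul_mem' := by
        rintro t _ ⟨b, hb, rfl⟩
        exact ⟨t • b, Submodule.smul_mem _ _ hb, Matrix.smul_mulVec _ _ _⟩ }
  have hIw : Iw = W := by
    apply hsimple
    · rintro g _ ⟨b, hb, rfl⟩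
      exact ⟨_, Rad_mul_left ρ hb g, by rw [Matrix.mulVec_mulVec]⟩
    · rintro _ ⟨b, hb, rfl⟩
      exact stable_Asp ρ W hst hb.1 hw
    · intro h0
      have : a *ᵥ w ∈ Iw := ⟨a, ⟨ha, hz⟩, rfl⟩
      rw [h0] at this
      exact haw ((Submodule.mem_bot k).mp this)
  have hwI : w ∈ Iw := by rw [hIw]; exact hw
  obtain ⟨b, hb, hbw⟩ := hwI
  have hw0 : w ≠ 0 := by
    rintro rfl
    exact haw (Matrix.mulVec_zero _)
  exact Rad_no_fix ρ hk hb w hw0 hbw

/-- **Test elements.** There are `n ^ 2` elements of the group such that `ρ x` is determined by the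
traces of `ρ (g_i x)`. -/
theorem exists_test (ρ : G →* GL (Fin n) k) (hs : Semis ρ)
    (hk : ∀ m : ℕ, 0 < m → m ≤ n → (m : k) ≠ 0) :
    ∃ g : Fin (n ^ 2) → G, ∀ x y : G,
      (∀ i, (ρ (g i * x) : Matrix (Fin n) (Fin n) k).trace =
        (ρ (g i * y) : Matrix (Fin n) (Fin n) k).trace) → ρ x = ρ y := by
  classical
  obtain ⟨b, hb1, hb2, hb3⟩ := exists_linearIndependent k
    (Set.range fun g => (ρ g : Matrix (Fin n) (Fin n) k))
  have hfin : b.Finite := LinearIndependent.setFinite hb3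
  have hcard : hfin.toFinset.card ≤ n ^ 2 := by
    have := hfin.fintype
    have h1 := hb3.fintype_card_le_finrank
    rw [Module.finrank_matrix] at h1
    simp only [Fintype.card_fin, Module.finrank_self, mul_one] at h1
    rw [Set.Finite.card_toFinset, sq]
    exact h1
  -- choose preimages
  have hpre : ∀ x : hfin.toFinset, ∃ g : G, (ρ g : Matrix (Fin n) (Fin n) k) = x := by
    rintro ⟨x, hx⟩
    obtain ⟨g, hg⟩ := hb1 (hfin.mem_toFinset.mp hx)
    exact ⟨g, hg⟩
  choose s hs' using hpre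
  let emb : hfin.toFinset ≃ Fin hfin.toFinset.card := hfin.toFinset.equivFin
  let g : Fin (n ^ 2) → G := fun i =>
    if h : i.1 < hfin.toFinset.card then s (emb.symm ⟨i.1, h⟩) else 1
  refine ⟨g, fun x y hxy => ?_⟩
  have key : ∀ z ∈ b, (z * ((ρ x : Matrix (Fin n) (Fin n) k) - ρ y)).trace = 0 := by
    intro z hz
    have hz' : z ∈ hfin.toFinset := hfin.mem_toFinset.mpr hz
    have h1 := hxy ⟨(emb ⟨z, hz'⟩).1, lt_of_lt_of_le (emb ⟨z, hz'⟩).2 hcard⟩
    have h2 : g ⟨(emb ⟨z, hz'⟩).1, lt_of_lt_of_le (emb ⟨z, hz'⟩).2 hcard⟩ = s ⟨z, hz'⟩ := by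
      change (if h : (emb ⟨z, hz'⟩).1 < hfin.toFinset.card then _ else _) = _
      rw [dif_pos (emb ⟨z, hz'⟩).2]
      simp
    rw [h2, map_mul, map_mul, Units.val_mul, Units.val_mul, hs' ⟨z, hz'⟩] at h1
    rw [mul_sub, Matrix.trace_sub, h1, sub_self]
  have hspan : ∀ z ∈ Asp ρ, (z * ((ρ x : Matrix (Fin n) (Fin n) k) - ρ y)).trace = 0 := by
    intro z hz
    rw [Asp, ← hb2] at hz
    induction hz using Submodule.span_induction with
    | mem z hz => exact key z hz
    | zero => rw [zero_mul, Matrix.trace_zero]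
    | add p q _ _ hp hq => rw [add_mul, Matrix.trace_add, hp, hq, add_zero]
    | smul c p _ hp => rw [smul_mul_assoc, Matrix.trace_smul, hp, smul_zero]
  have h0 := rad_trace ρ hs hk ((ρ x : Matrix (Fin n) (Fin n) k) - ρ y)
    (Submodule.sub_mem _ (mem_Asp ρ x) (mem_Asp ρ y)) (fun g => by
      rw [Matrix.trace_mul_comm]
      exact hspan _ (mem_Asp ρ g))
  exact Units.ext (sub_eq_zero.mp h0)

end Run7.h427.DS
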