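import Pool.Agent.W528.Ord.Dens
import Pool.Agent.W540.BE.NF
import Pool.Agent.Run7.h427.DS.Alg

/-!
# Semisimple Galois representations with few traces at most Frobenius elements have finite image

If the primes `v` with a Frobenius element whose trace is not in the finite set `Y` have a lower
natural density `≤ η` with `n ^ 2 η < 1`, then the image is finite and has at most
`|Y| ^ (n ^ 2) / (1 - n ^ 2 η)` elements (`bounded`).
-/

set_option autoImplicit false

namespace Run7.h427.DS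

open MeasureTheory Topology Filter NumberField IsDedekindDomain
open Pool.Agent.W401.Cheb Pool.Agent.W528.Ord
open scoped Pointwise Matrix

section profinite

variable {G : Type*} [Group G] [TopologicalSpace G] [IsTopologicalGroup G] [CompactSpace G]
  [T2Space G] [MeasurableSpace G] [BorelSpace G]

/-- a closed set of a profinite group is approximated in measure by its images in finite quotients -/
theorem exists_close (hprof : TotallyDisconnectedSpace G) (μ : Measure G) [IsProbabilityMeasure μ]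
    [μ.IsMulLeftInvariant] [μ.Regular] (Z : Set G) (hZ : IsClosed Z) (ε : ℝ) (hε : 0 < ε) :
    ∃ U : OpenNormalSubgroup G, Finite (G ⧸ U.toSubgroup) ∧
      (((QuotientGroup.mk : G → G ⧸ U.toSubgroup) '' Z).ncard : ℝ) / (Nat.card (G ⧸ U.toSubgroup) : ℝ) <
        μ.real Z + ε := by
  have hpos : 0 < μ.real Z + ε := add_pos_of_nonneg_of_pos measureReal_nonneg hε
  have hlt : μ Z < ENNReal.ofReal (μ.real Z + ε) := by
    rw [ENNReal.lt_ofReal_iff_toReal_lt (measure_ne_top μ Z)]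
    change μ.real Z < _
    linarith
  obtain ⟨O, hZO, hO, hOμ⟩ := Z.exists_isOpen_lt_of_lt (μ := μ) (ENNReal.ofReal (μ.real Z + ε)) hlt
  obtain ⟨V, hV, hZV⟩ := compact_open_separated_mul_right hZ.isCompact hO hZO
  obtain ⟨W, hWV, hW, hW1⟩ := mem_nhds_iff.mp hV
  obtain ⟨U, hU⟩ := ProfiniteGrp.exist_openNormalSubgroup_sub_open_nhds_of_one hW hW1
  have hUo : IsOpen (U.toSubgroup : Set G) := U.isOpen'
  have hfin : Finite (G ⧸ U.toSubgroup) := Subgroup.quotient_finite_of_isOpen _ hUo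
  refine ⟨U, hfin, ?_⟩
  have h1 := measure_union μ U.toSubgroup hUo ((QuotientGroup.mk : G → G ⧸ U.toSubgroup) '' Z)
  have h2 := measure_U μ U.toSubgroup hUo
  have h3 : μ {x | (QuotientGroup.mk x : G ⧸ U.toSubgroup) ∈
      ((QuotientGroup.mk : G → G ⧸ U.toSubgroup) '' Z)} < ENNReal.ofReal (μ.real Z + ε) := by
    refine lt_of_le_of_lt (measure_mono ?_) hOμ
    rintro x ⟨z, hz, hzx⟩
    apply hZV
    rw [QuotientGroup.eq] at hzx
    refine Set.mem_mul.mpr ⟨z, hz, z⁻¹ * x, hWV (hU hzx), by group⟩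
  rw [h1] at h3
  have hc : (0 : ℝ) < (Nat.card (G ⧸ U.toSubgroup) : ℝ) := by exact_mod_cast Nat.card_pos
  have hUt : μ (U.toSubgroup : Set G) ≠ ⊤ := measure_ne_top μ _
  have h4 : (Nat.card (G ⧸ U.toSubgroup) : ℝ) * (μ (U.toSubgroup : Set G)).toReal = 1 := by
    have := congrArg ENNReal.toReal h2
    rw [ENNReal.toReal_mul, ENNReal.toReal_one, ENNReal.toReal_natCast] at this
    exact this
  have h5 : ((((QuotientGroup.mk : G → G ⧸ U.toSubgroup) '' Z).ncard : ℝ)) *
      (μ (U.toSubgroup : Set G)).toReal < μ.real Z + ε := by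
    have h6 := (ENNReal.toReal_lt_toReal (ENNReal.mul_ne_top (by simp) hUt) ENNReal.ofReal_ne_top).mpr h3
    rw [ENNReal.toReal_mul, ENNReal.toReal_natCast, ENNReal.toReal_ofReal hpos.le] at h6
    exact h6
  have h7 : (μ (U.toSubgroup : Set G)).toReal = 1 / (Nat.card (G ⧸ U.toSubgroup) : ℝ) := by
    rw [eq_div_iff hc.ne', mul_comm]
    exact h4
  rw [h7] at h5
  rwa [mul_one_div] at h5

end profinite

section field

variable {F : Type} [Field F] [NumberField F]

/-- all primes together have density one -/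
theorem dens_true : Tendsto (dens fun _ : HeightOneSpectrum (𝓞 F) => True) atTop (𝓝 1) := by
  have h1 := chebK F ⊤ isOpen_univ Set.univ (fun _ _ _ => Set.mem_univ _)
    (fun _ _ _ _ => Set.mem_univ _)
  have hfin : Finite (GK F ⧸ (⊤ : Subgroup (GK F))) :=
    Subgroup.quotient_finite_of_isOpen _ isOpen_univ
  have h2 : ((QuotientGroup.mk : GK F → GK F ⧸ (⊤ : Subgroup (GK F))) '' Set.univ).ncard =
      Nat.card (GK F ⧸ (⊤ : Subgroup (GK F))) := by
    rw [Set.image_univ, Set.range_eq_univ.2 QuotientGroup.mk_surjective, Set.ncard_univ]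
  have h3 : (Nat.card (GK F ⧸ (⊤ : Subgroup (GK F))) : ℝ) ≠ 0 := by
    exact_mod_cast Nat.card_pos.ne'
  rw [h2, div_self h3] at h1
  refine h1.congr fun N => le_antisymm ?_ ?_
  · exact dens_mono (fun _ _ => trivial) N
  · refine dens_mono (fun v _ => ?_) N
    obtain ⟨σ, hσ⟩ := Pool.Agent.W540.BE.exists_isFrob F v
    exact ⟨σ, Set.mem_univ _, hσ⟩

/-- a finite set of primes has density zero -/
theorem dens_finite (S : Set (HeightOneSpectrum (𝓞 F))) (hS : S.Finite) :
    Tendsto (dens fun v : HeightOneSpectrum (𝓞 F) => v ∈ S) atTop (𝓝 0) := by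
  have h3 : Tendsto (fun N : ℕ => (S.ncard : ℝ) / (Nat.primeCounting N : ℝ)) atTop (𝓝 0) := by
    apply Tendsto.const_div_atTop
    exact tendsto_natCast_atTop_atTop.comp Nat.tendsto_primeCounting
  refine squeeze_zero (fun N => dens_nonneg _ _) (fun N => ?_) h3
  unfold dens
  apply div_le_div_of_nonneg_right _ (Nat.cast_nonneg _)
  have h4 : {v : HeightOneSpectrum (𝓞 F) | Ideal.absNorm v.asIdeal ≤ N ∧ v ∈ S} ⊆ S :=
    fun v hv => hv.2
  exact_mod_cast Set.ncard_le_ncard h4 hS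

/-- the measure of a closed set from the density of its complement -/
theorem measure_ge [MeasurableSpace (GK F)] [BorelSpace (GK F)] (μ : Measure (GK F))
    [IsProbabilityMeasure μ] [μ.IsMulLeftInvariant] [μ.Regular] (Z : Set (GK F)) (hZ : IsClosed Z)
    (hconj : ∀ σ ∈ Z, ∀ τ : GK F, τ * σ * τ⁻¹ ∈ Z) (η : ℝ)
    (hd : ∀ ε > 0, ∃ᶠ N : ℕ in atTop,
      dens (fun v : HeightOneSpectrum (𝓞 F) => ∃ σ, σ ∉ Z ∧ IsFrob v σ) N ≤ η + ε) :
    1 - η ≤ μ.real Z := by
  by_contra hcon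
  push Not at hcon
  set ε : ℝ := (1 - η - μ.real Z) / 4 with hε
  have hε0 : 0 < ε := by rw [hε]; linarith
  obtain ⟨U, hfin, hU⟩ := exists_close inferInstance μ Z hZ ε hε0
  have hUo : IsOpen (U.toSubgroup : Set (GK F)) := U.isOpen'
  have : U.toSubgroup.Normal := U.isNormal'
  set C : Set (GK F) := {x | (QuotientGroup.mk x : GK F ⧸ U.toSubgroup) ∈
    ((QuotientGroup.mk : GK F → GK F ⧸ U.toSubgroup) '' Z)} with hC
  have hCC : (QuotientGroup.mk : GK F → GK F ⧸ U.toSubgroup) '' C =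
      (QuotientGroup.mk : GK F → GK F ⧸ U.toSubgroup) '' Z := by
    ext q
    constructor
    · rintro ⟨x, hx, rfl⟩
      exact hx
    · rintro ⟨z, hz, rfl⟩
      exact ⟨z, ⟨z, hz, rfl⟩, rfl⟩
  have key := chebK F U.toSubgroup hUo C ?_ ?_
  · rw [hCC] at key
    have hev := key.eventually (gt_mem_nhds hU)
    have hev2 := (dens_true (F := F)).eventually (lt_mem_nhds (show 1 - ε < 1 by linarith))
    obtain ⟨N, ⟨h1, h2⟩, h3⟩ := (((hd ε hε0).and_eventually hev).and_eventually hev2).exists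
    have h4 : dens (fun _ : HeightOneSpectrum (𝓞 F) => True) N ≤
        dens (fun v : HeightOneSpectrum (𝓞 F) => ∃ σ ∈ C, IsFrob v σ) N +
        dens (fun v : HeightOneSpectrum (𝓞 F) => ∃ σ, σ ∉ Z ∧ IsFrob v σ) N := by
      refine le_trans (dens_mono (fun v _ => ?_) N) (dens_or _ _ N)
      obtain ⟨σ, hσ⟩ := Pool.Agent.W540.BE.exists_isFrob F v
      by_cases h : σ ∈ Z
      · left
        exact ⟨σ, ⟨σ, h, rfl⟩, hσ⟩
      · right
        exact ⟨σ, h, hσ⟩
    have h5 : 4 * ε = 1 - η - μ.real Z := by rw [hε]; ring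
    linarith
  · rintro σ ⟨z, hz, hzσ⟩ τ
    refine ⟨τ * z * τ⁻¹, hconj z hz τ, ?_⟩
    have e1 : ((τ * z * τ⁻¹ : GK F) : GK F ⧸ U.toSubgroup) = (τ : GK F ⧸ U.toSubgroup) *
      (z : GK F ⧸ U.toSubgroup) * ((τ : GK F ⧸ U.toSubgroup))⁻¹ := rfl
    have e2 : ((τ * σ * τ⁻¹ : GK F) : GK F ⧸ U.toSubgroup) = (τ : GK F ⧸ U.toSubgroup) *
      (σ : GK F ⧸ U.toSubgroup) * ((τ : GK F ⧸ U.toSubgroup))⁻¹ := rfl
    rw [e1, e2, hzσ]
  · rintro σ ⟨z, hz, hzσ⟩ u hu
    refine ⟨z, hz, ?_⟩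
    rw [hzσ, QuotientGroup.eq]
    simpa using hu

variable {k : Type*} [Field k] {n : ℕ}

/-- **Bounded image.** -/
theorem bounded (ρ : GK F →* GL (Fin n) k) (hs : Semis ρ)
    (hk : ∀ m : ℕ, 0 < m → m ≤ n → (m : k) ≠ 0) (Y : Finset k)
    (hZ : IsClosed {σ : GK F | (ρ σ : Matrix (Fin n) (Fin n) k).trace ∈ Y})
    (hker : IsClosed (ρ.ker : Set (GK F))) (η : ℝ) (hη : (n : ℝ) ^ 2 * η < 1)
    (hd : ∀ ε > 0, ∃ᶠ N : ℕ in atTop, dens (fun v : HeightOneSpectrum (𝓞 F) =>
      ∃ σ, (ρ σ : Matrix (Fin n) (Fin n) k).trace ∉ Y ∧ IsFrob v σ) N ≤ η + ε) :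
    Finite ρ.range ∧ (1 - (n : ℝ) ^ 2 * η) * Nat.card ρ.range ≤ (Y.card : ℝ) ^ (n ^ 2) := by
  classical
  letI : MeasurableSpace (GK F) := borel _
  have : BorelSpace (GK F) := ⟨rfl⟩
  let μ : Measure (GK F) := Measure.haarMeasure ⊤
  have hprob : IsProbabilityMeasure μ := ⟨by
    have := Measure.haarMeasure_self (K₀ := (⊤ : TopologicalSpace.PositiveCompacts (GK F)))
    exact this⟩
  have hleft : μ.IsMulLeftInvariant := inferInstance
  have hreg : μ.Regular := inferInstance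
  obtain ⟨g, hg⟩ := exists_test ρ hs hk
  set Z : Set (GK F) := {σ : GK F | (ρ σ : Matrix (Fin n) (Fin n) k).trace ∈ Y} with hZdef
  have hμZ : 1 - η ≤ μ.real Z := by
    refine measure_ge μ Z hZ ?_ η hd
    intro σ hσ τ
    change (ρ (τ * σ * τ⁻¹) : Matrix (Fin n) (Fin n) k).trace ∈ Y
    rw [map_mul, map_mul, Units.val_mul, Units.val_mul, Matrix.trace_mul_cycle, ← Units.val_mul,
      ← Units.val_mul, ← map_mul, ← map_mul]
    have : τ⁻¹ * τ * σ = σ := by group
    rw [this]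
    exact hσ
  have hμZc : μ.real Zᶜ ≤ η := by
    have := probReal_compl_eq_one_sub (μ := μ) hZ.measurableSet
    linarith
  -- the good set
  set Gd : Set (GK F) := ⋂ i, (fun σ => g i * σ) ⁻¹' Z with hGd
  have hmeas : ∀ i, MeasurableSet ((fun σ => g i * σ) ⁻¹' Z) := fun i =>
    (hZ.preimage (continuous_mul_left (g i))).measurableSet
  have hGdm : MeasurableSet Gd := MeasurableSet.iInter hmeas
  have hGdc : μ.real Gdᶜ ≤ (n : ℝ) ^ 2 * η := by
    rw [hGd, Set.compl_iInter]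
    refine le_trans (measureReal_iUnion_fintype_le _) ?_
    have h1 : ∀ i, μ.real ((fun σ => g i * σ) ⁻¹' Z)ᶜ = μ.real Zᶜ := by
      intro i
      rw [← Set.preimage_compl]
      unfold Measure.real
      rw [measure_preimage_mul]
    rw [Finset.sum_congr rfl (fun i _ => h1 i), Finset.sum_const, Finset.card_univ, Fintype.card_fin,
      nsmul_eq_mul]
    push_cast
    exact mul_le_mul_of_nonneg_left hμZc (by positivity)
  have hGd1 : 1 - (n : ℝ) ^ 2 * η ≤ μ.real Gd := by
    have := probReal_compl_eq_one_sub (μ := μ) hGdm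
    linarith
  -- fibres of `ρ`
  have hfib : ∀ h : GK F, {σ : GK F | ρ σ = ρ h} = (fun σ => h⁻¹ * σ) ⁻¹' (ρ.ker : Set (GK F)) := by
    intro h
    ext σ
    change ρ σ = ρ h ↔ h⁻¹ * σ ∈ ρ.ker
    rw [MonoidHom.mem_ker, map_mul, map_inv, inv_mul_eq_one, eq_comm]
  have hfibμ : ∀ h : GK F, μ.real {σ : GK F | ρ σ = ρ h} = μ.real (ρ.ker : Set (GK F)) := by
    intro h
    rw [hfib]
    unfold Measure.real
    rw [measure_preimage_mul]
  have hfibm : ∀ h : GK F, MeasurableSet {σ : GK F | ρ σ = ρ h} := by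
    intro h
    rw [hfib]
    exact (hker.preimage (continuous_mul_left h⁻¹)).measurableSet
  -- the good set is covered by few fibres
  have hcov : μ.real Gd ≤ (Y.card : ℝ) ^ (n ^ 2) * μ.real (ρ.ker : Set (GK F)) := by
    let P : (Fin (n ^ 2) → Y) → Set (GK F) := fun f =>
      {σ : GK F | ∀ i, (ρ (g i * σ) : Matrix (Fin n) (Fin n) k).trace = f i}
    have hsub : Gd ⊆ ⋃ f, P f := by
      intro σ hσ
      rw [hGd, Set.mem_iInter] at hσ
      rw [Set.mem_iUnion]
      exact ⟨fun i => ⟨_, hσ i⟩, fun i => rfl⟩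
    have hP : ∀ f, μ.real (P f) ≤ μ.real (ρ.ker : Set (GK F)) := by
      intro f
      rcases (P f).eq_empty_or_nonempty with he | ⟨h, hh⟩
      · rw [he, measureReal_empty]
        exact measureReal_nonneg
      · rw [← hfibμ h]
        apply measureReal_mono _ (measure_ne_top μ _)
        intro σ hσ
        apply hg
        intro i
        rw [hσ i, hh i]
    calc μ.real Gd ≤ μ.real (⋃ f, P f) := measureReal_mono hsub (measure_ne_top μ _)
      _ ≤ ∑ f, μ.real (P f) := measureReal_iUnion_fintype_le _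
      _ ≤ ∑ f : Fin (n ^ 2) → Y, μ.real (ρ.ker : Set (GK F)) := Finset.sum_le_sum fun f _ => hP f
      _ = (Y.card : ℝ) ^ (n ^ 2) * μ.real (ρ.ker : Set (GK F)) := by
        rw [Finset.sum_const, Finset.card_univ, Fintype.card_fun, Fintype.card_fin,
          Fintype.card_coe, nsmul_eq_mul]
        push_cast
        rfl
  have hkpos : 0 < μ.real (ρ.ker : Set (GK F)) := by
    rcases (measureReal_nonneg (μ := μ) (s := (ρ.ker : Set (GK F)))).lt_or_eq with h | h
    · exact h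
    · rw [← h, mul_zero] at hcov
      linarith
  -- disjointness
  have hdisj : ∀ T : Finset (GL (Fin n) k), (∀ x ∈ T, x ∈ ρ.range) →
      (T.card : ℝ) * μ.real (ρ.ker : Set (GK F)) ≤ 1 := by
    intro T hT
    have h1 : ∀ x ∈ T, μ.real {σ : GK F | ρ σ = x} = μ.real (ρ.ker : Set (GK F)) := by
      intro x hx
      obtain ⟨h, rfl⟩ := hT x hx
      exact hfibμ h
    have h2 : ∀ x ∈ T, MeasurableSet {σ : GK F | ρ σ = x} := by
      intro x hx
      obtain ⟨h, rfl⟩ := hT x hx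
      exact hfibm h
    have h3 : μ.real (⋃ x ∈ T, {σ : GK F | ρ σ = x}) = ∑ x ∈ T, μ.real {σ : GK F | ρ σ = x} := by
      apply measureReal_biUnion_finset _ h2
      intro x _ y _ hxy
      rw [Function.onFun, Set.disjoint_left]
      intro σ h4 h5
      exact hxy (h4.symm.trans h5)
    rw [Finset.sum_congr rfl h1, Finset.sum_const, nsmul_eq_mul] at h3
    rw [← h3]
    exact measureReal_le_one
  have hfinr : Finite ρ.range := by
    by_contra hinf
    rw [not_finite_iff_infinite] at hinf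
    have hinf' : (ρ.range : Set (GL (Fin n) k)).Infinite := Set.infinite_coe_iff.mp hinf
    obtain ⟨m, hm⟩ := exists_nat_gt (1 / μ.real (ρ.ker : Set (GK F)))
    obtain ⟨T, hT, hTc⟩ := hinf'.exists_subset_card_eq m
    have h1 := hdisj T (fun x hx => hT hx)
    rw [hTc] at h1
    rw [div_lt_iff₀ hkpos] at hm
    linarith
  refine ⟨hfinr, ?_⟩
  have hcard : (Nat.card ρ.range : ℝ) * μ.real (ρ.ker : Set (GK F)) ≤ 1 := by
    have hf : (ρ.range : Set (GL (Fin n) k)).Finite := Set.toFinite _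
    have h1 := hdisj hf.toFinset (fun x hx => hf.mem_toFinset.mp hx)
    rw [← Set.ncard_eq_toFinset_card _ hf] at h1
    exact h1
  calc (1 - (n : ℝ) ^ 2 * η) * Nat.card ρ.range
      ≤ ((Y.card : ℝ) ^ (n ^ 2) * μ.real (ρ.ker : Set (GK F))) * Nat.card ρ.range :=
        mul_le_mul_of_nonneg_right (hGd1.trans hcov) (Nat.cast_nonneg _)
    _ = (Y.card : ℝ) ^ (n ^ 2) * (Nat.card ρ.range * μ.real (ρ.ker : Set (GK F))) := by ring
    _ ≤ (Y.card : ℝ) ^ (n ^ 2) * 1 := mul_le_mul_of_nonneg_left hcard (by positivity)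
    _ = (Y.card : ℝ) ^ (n ^ 2) := mul_one _

end field

end Run7.h427.DS
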