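import Pool.Agent.W401.Cheb.AbsDefs
import Pool.Agent.Run7.h427.DS.Alg

/-!
# Systems of Hecke polynomials and the Galois representations which realise them
-/

set_option autoImplicit false

namespace Run7.h427.DS

open NumberField IsDedekindDomain Polynomial Filter
open Pool.Agent.W401.Cheb

/-- A system of Hecke polynomials of degree `n` over the number field `F` with coefficients in the
integers of the number field `E`: polynomials `T v` for the primes `v` of `F`, and a finite set `S` of
primes (only the `T v` with `v ∉ S` matter). -/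
structure HeckeSystem (F E : Type) [Field F] [NumberField F] [Field E] [NumberField E] (n : ℕ) where
  /-- the exceptional primes -/
  S : Set (HeightOneSpectrum (𝓞 F))
  /-- there are finitely many exceptional primes -/
  finite_S : S.Finite
  /-- the Hecke polynomials -/
  T : HeightOneSpectrum (𝓞 F) → (𝓞 E)[X]

variable {F E : Type} [Field F] [NumberField F] [Field E] [NumberField E] {n : ℕ}

/-- the Hecke eigenvalue: the sum of the roots of `T v` -/
noncomputable def HeckeSystem.a (Θ : HeckeSystem F E n) (v : HeightOneSpectrum (𝓞 F)) : 𝓞 E :=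
  -(Θ.T v).coeff (n - 1)

/-- **Bounded mean square.**  For some `C` there are arbitrarily large `N` such that for every
embedding `σ` of `E` the sum of `|σ (a v)| ^ 2` over the primes `v ∉ S` of norm at most `N` is at most
`C π (N)`. -/
def HeckeSystem.MeanSquare (Θ : HeckeSystem F E n) : Prop :=
  ∃ C : ℝ, ∃ᶠ N : ℕ in atTop, ∀ σ : E →+* ℂ,
    ∑ᶠ v ∈ {v : HeightOneSpectrum (𝓞 F) | Ideal.absNorm v.asIdeal ≤ N ∧ v ∉ Θ.S},
      ‖σ (Θ.a v)‖ ^ 2 ≤ C * (Nat.primeCounting N : ℝ)

/-- **Few traces.**  There are a finite set `Y` of integers of `E` and a real number `η < 1 / n ^ 2` such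
that for arbitrarily large `N` the number of primes `v ∉ S` of norm at most `N` with `a v ∉ Y` is at
most `η π (N)`. -/
def HeckeSystem.FewTraces (Θ : HeckeSystem F E n) : Prop :=
  ∃ (Y : Finset (𝓞 E)) (η : ℝ), (n : ℝ) ^ 2 * η < 1 ∧ ∃ᶠ N : ℕ in atTop,
    dens (fun v : HeightOneSpectrum (𝓞 F) => v ∉ Θ.S ∧ Θ.a v ∉ Y) N ≤ η

/-- `ρ` is unramified at `v` and the characteristic polynomial of each Frobenius element at `v` is the
image of the Hecke polynomial `T v`. -/
def HeckeSystem.Matches (Θ : HeckeSystem F E n) {K : Type} [Field K] (φ : 𝓞 E →+* K)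
    (ρ : GK F →* GL (Fin n) K) (v : HeightOneSpectrum (𝓞 F)) : Prop :=
  (∀ τ : GK F, IsInert v τ → ρ τ = 1) ∧
    ∀ σ : GK F, IsFrob v σ → (ρ σ : Matrix (Fin n) (Fin n) K).charpoly = (Θ.T v).map φ

/-- A mod `ℓ` representation which realises the system: a homomorphism `φ` from the integers of `E`
to a finite field `k`, a semisimple representation `ρ` over `k` with open kernel, unramified and with
the reductions of the `T v` as characteristic polynomials of Frobenius at all `v ∉ S` which do not
divide the characteristic of `k`. -/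
structure HeckeSystem.ModRep (Θ : HeckeSystem F E n) where
  /-- the finite field -/
  k : Type
  [fld : Field k]
  [fin : Finite k]
  /-- the reduction of the coefficients -/
  φ : 𝓞 E →+* k
  /-- the representation -/
  ρ : GK F →* GL (Fin n) k
  isOpen_ker : IsOpen (ρ.ker : Set (GK F))
  semis : Semis ρ
  match_of : ∀ v ∉ Θ.S, ((ringChar k : ℕ) : 𝓞 F) ∉ v.asIdeal → Θ.Matches φ ρ v

attribute [instance] HeckeSystem.ModRep.fld HeckeSystem.ModRep.fin

/-- the primes `𝔩` of `E` for which there is a representation modulo `𝔩` -/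
def HeckeSystem.modPrimes (Θ : HeckeSystem F E n) : Set (HeightOneSpectrum (𝓞 E)) :=
  {𝔩 | ∃ r : Θ.ModRep, RingHom.ker r.φ = 𝔩.asIdeal}

end Run7.h427.DS
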