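import Pool.Agent.Run7.h427.DS.Bdd
import Pool.Agent.Run7.h427.DS.Defs

/-!
# The size of the image of a representation which realises a system of bounded mean square
-/

set_option autoImplicit false

namespace Run7.h427.DS

open Topology Filter NumberField IsDedekindDomain Polynomial
open Pool.Agent.W401.Cheb Pool.Agent.W528.Ord
open scoped Matrix

variable {F E : Type} [Field F] [NumberField F] [Field E] [NumberField E] {n : ℕ}

/-- algebraic integers of bounded house are finite in number -/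
theorem finite_house (c : ℝ) : {x : 𝓞 E | ∀ σ : E →+* ℂ, ‖σ x‖ ≤ c}.Finite := by
  have h := NumberField.Embeddings.finite_of_norm_le E ℂ c
  refine Set.Finite.of_finite_image (f := fun x : 𝓞 E => (x : E)) (h.subset ?_) ?_
  · rintro _ ⟨x, hx, rfl⟩
    exact ⟨RingOfIntegers.isIntegral_coe x, hx⟩
  · intro x _ y _ hxy
    exact RingOfIntegers.ext hxy

/-- For every `η > 0` there is a finite set `Y` such that the primes `v ∉ S` with `a v ∉ Y` have lower
density at most `η`. -/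
theorem dens_few (Θ : HeckeSystem F E n) (hms : Θ.MeanSquare) (η : ℝ) (hη : 0 < η) :
    ∃ Y : Finset (𝓞 E), ∃ᶠ N : ℕ in atTop,
      dens (fun v : HeightOneSpectrum (𝓞 F) => v ∉ Θ.S ∧ Θ.a v ∉ Y) N ≤ η := by
  classical
  obtain ⟨C, hC⟩ := hms
  set D : ℝ := (Fintype.card (E →+* ℂ) : ℝ) with hD
  have hD0 : 0 ≤ D := by positivity
  set c : ℝ := 1 + D * |C| / η with hc
  have hc1 : 1 ≤ c := by
    rw [hc]
    have : 0 ≤ D * |C| / η := by positivity
    linarith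
  have hcC : D * |C| ≤ η * c ^ 2 := by
    have h1 : D * |C| / η ≤ c := by rw [hc]; linarith
    have h2 : c ≤ c ^ 2 := by nlinarith
    have h3 : D * |C| = η * (D * |C| / η) := by field_simp
    rw [h3]
    exact mul_le_mul_of_nonneg_left (h1.trans h2) hη.le
  have hY := finite_house (E := E) c
  refine ⟨hY.toFinset, hC.mono fun N hN => ?_⟩
  set V : Set (HeightOneSpectrum (𝓞 F)) := {v | Ideal.absNorm v.asIdeal ≤ N ∧ v ∉ Θ.S} with hV
  have hVf : V.Finite := (Pool.Agent.W352.ChAbs.finite_le (K := F) N).subset fun v hv => hv.1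
  have hN' : ∀ σ : E →+* ℂ, ∑ v ∈ hVf.toFinset, ‖σ (Θ.a v)‖ ^ 2 ≤ C * (Nat.primeCounting N : ℝ) := by
    intro σ
    have h1 := hN σ
    rwa [finsum_mem_eq_finite_toFinset_sum _ hVf] at h1
  set W : Finset (HeightOneSpectrum (𝓞 F)) := hVf.toFinset.filter fun v => Θ.a v ∉ hY.toFinset with hW
  have hcard : (Nat.card {v : HeightOneSpectrum (𝓞 F) // Ideal.absNorm v.asIdeal ≤ N ∧
      v ∉ Θ.S ∧ Θ.a v ∉ hY.toFinset}) = W.card := by
    have h1 : {v : HeightOneSpectrum (𝓞 F) | Ideal.absNorm v.asIdeal ≤ N ∧ v ∉ Θ.S ∧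
        Θ.a v ∉ hY.toFinset} = (W : Set (HeightOneSpectrum (𝓞 F))) := by
      ext v
      rw [hW, Finset.coe_filter, Set.mem_ofPred_eq, Set.mem_ofPred_eq]
      constructor
      · rintro ⟨h1, h2, h3⟩
        exact ⟨hVf.mem_toFinset.mpr ⟨h1, h2⟩, h3⟩
      · rintro ⟨h1, h3⟩
        have h4 := hVf.mem_toFinset.mp h1
        exact ⟨h4.1, h4.2, h3⟩
    have h2 : Nat.card {v : HeightOneSpectrum (𝓞 F) // Ideal.absNorm v.asIdeal ≤ N ∧
      v ∉ Θ.S ∧ Θ.a v ∉ hY.toFinset} = {v : HeightOneSpectrum (𝓞 F) | Ideal.absNorm v.asIdeal ≤ N ∧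
        v ∉ Θ.S ∧ Θ.a v ∉ hY.toFinset}.ncard := rfl
    rw [h2, h1, Set.ncard_coe_finset]
  have hlow : ∀ v ∈ W, c ^ 2 ≤ ∑ σ : E →+* ℂ, ‖σ (Θ.a v)‖ ^ 2 := by
    intro v hv
    rw [hW, Finset.mem_filter, Set.Finite.mem_toFinset] at hv
    have h1 : ∃ σ : E →+* ℂ, c < ‖σ (Θ.a v)‖ := by
      by_contra hcon
      push Not at hcon
      exact hv.2 (hY.mem_toFinset.mpr hcon)
    obtain ⟨σ, hσ⟩ := h1
    calc c ^ 2 ≤ ‖σ (Θ.a v)‖ ^ 2 := by
          apply pow_le_pow_left₀ (by linarith) hσ.le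
      _ ≤ ∑ σ : E →+* ℂ, ‖σ (Θ.a v)‖ ^ 2 :=
          Finset.single_le_sum (f := fun σ : E →+* ℂ => ‖σ (Θ.a v)‖ ^ 2)
            (fun _ _ => by positivity) (Finset.mem_univ σ)
  have hsum : (W.card : ℝ) * c ^ 2 ≤ (D * |C|) * (Nat.primeCounting N : ℝ) := by
    calc (W.card : ℝ) * c ^ 2 = ∑ v ∈ W, c ^ 2 := by rw [Finset.sum_const, nsmul_eq_mul]
      _ ≤ ∑ v ∈ W, ∑ σ : E →+* ℂ, ‖σ (Θ.a v)‖ ^ 2 := Finset.sum_le_sum hlow
      _ ≤ ∑ v ∈ hVf.toFinset, ∑ σ : E →+* ℂ, ‖σ (Θ.a v)‖ ^ 2 := by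
          apply Finset.sum_le_sum_of_subset_of_nonneg (Finset.filter_subset _ _)
          intro v _ _
          exact Finset.sum_nonneg fun σ _ => by positivity
      _ = ∑ σ : E →+* ℂ, ∑ v ∈ hVf.toFinset, ‖σ (Θ.a v)‖ ^ 2 := Finset.sum_comm
      _ ≤ ∑ σ : E →+* ℂ, |C| * (Nat.primeCounting N : ℝ) := by
          apply Finset.sum_le_sum
          intro σ _
          refine (hN' σ).trans (mul_le_mul_of_nonneg_right (le_abs_self C) (Nat.cast_nonneg _))
      _ = (D * |C|) * (Nat.primeCounting N : ℝ) := by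
          rw [Finset.sum_const, Finset.card_univ, nsmul_eq_mul, mul_assoc]
  unfold dens
  rw [hcard]
  rcases (Nat.cast_nonneg (α := ℝ) (Nat.primeCounting N)).eq_or_lt with h0 | h0
  · rw [← h0, div_zero]
    exact hη.le
  · rw [div_le_iff₀ h0]
    have hc2 : 0 < c ^ 2 := by positivity
    have h1 : (W.card : ℝ) * c ^ 2 ≤ (η * (Nat.primeCounting N : ℝ)) * c ^ 2 := by
      refine hsum.trans ?_
      have := mul_le_mul_of_nonneg_right hcC h0.le
      linarith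
    exact le_of_mul_le_mul_right h1 hc2

/-- bounded mean square implies few traces -/
theorem fewTraces_of_meanSquare (Θ : HeckeSystem F E n) (hms : Θ.MeanSquare) : Θ.FewTraces := by
  obtain ⟨Y, hY⟩ := dens_few Θ hms (1 / (2 * ((n : ℝ) ^ 2 + 1))) (by positivity)
  refine ⟨Y, _, ?_, hY⟩
  rw [mul_one_div, div_lt_one (by positivity)]
  nlinarith [sq_nonneg (n : ℝ)]

/-- the trace of a Frobenius element -/
theorem trace_of_match (Θ : HeckeSystem F E n) (hn : 0 < n) {K : Type} [Field K] (φ : 𝓞 E →+* K)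
    (ρ : GK F →* GL (Fin n) K) (v : HeightOneSpectrum (𝓞 F)) (h : Θ.Matches φ ρ v) (σ : GK F)
    (hσ : IsFrob v σ) : (ρ σ : Matrix (Fin n) (Fin n) K).trace = φ (Θ.a v) := by
  have : Nonempty (Fin n) := ⟨⟨0, hn⟩⟩
  rw [Matrix.trace_eq_neg_charpoly_coeff, h.2 σ hσ, coeff_map, Fintype.card_fin, HeckeSystem.a,
    map_neg]

/-- the bound for the image -/
noncomputable def bd (n : ℕ) (Y : Finset (𝓞 E)) (η : ℝ) : ℕ :=
  ⌊(Y.card : ℝ) ^ (n ^ 2) / (1 - (n : ℝ) ^ 2 * η)⌋₊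

/-- **Bound for the image.** -/
theorem size (Θ : HeckeSystem F E n) (hn : 0 < n) (Y : Finset (𝓞 E)) (η : ℝ)
    (hη : (n : ℝ) ^ 2 * η < 1)
    (hfew : ∃ᶠ N : ℕ in atTop,
      dens (fun v : HeightOneSpectrum (𝓞 F) => v ∉ Θ.S ∧ Θ.a v ∉ Y) N ≤ η)
    {K : Type} [Field K] (hk : ∀ m : ℕ, 0 < m → m ≤ n → (m : K) ≠ 0) (φ : 𝓞 E →+* K)
    (ρ : GK F →* GL (Fin n) K) (hs : Semis ρ)
    (hcl : ∀ Y' : Finset K, IsClosed {σ : GK F | (ρ σ : Matrix (Fin n) (Fin n) K).trace ∈ Y'})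
    (hker : IsClosed (ρ.ker : Set (GK F))) (hfin : {v | ¬ Θ.Matches φ ρ v}.Finite) :
    Finite ρ.range ∧ Nat.card ρ.range ≤ bd n Y η := by
  classical
  have h1 := bounded ρ hs hk (Y.image φ) (hcl _) hker η hη ?_
  · refine ⟨h1.1, Nat.le_floor ?_⟩
    rw [le_div_iff₀ (by linarith)]
    have h4 : ((Y.image φ).card : ℝ) ^ (n ^ 2) ≤ (Y.card : ℝ) ^ (n ^ 2) := by
      apply pow_le_pow_left₀ (Nat.cast_nonneg _)
      exact_mod_cast Finset.card_image_le
    linarith [h1.2]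
  · intro ε hε
    have hB : (Θ.S ∪ {v | ¬ Θ.Matches φ ρ v}).Finite := Θ.finite_S.union hfin
    have h2 := (dens_finite _ hB).eventually (gt_mem_nhds hε)
    refine (hfew.and_eventually h2).mono fun N hN => ?_
    obtain ⟨h3, h4⟩ := hN
    refine le_trans (dens_mono (Q := fun v => (v ∉ Θ.S ∧ Θ.a v ∉ Y) ∨
      v ∈ (Θ.S ∪ {v | ¬ Θ.Matches φ ρ v})) ?_ N) ((dens_or _ _ N).trans (by linarith))
    rintro v ⟨σ, hσ, hσv⟩
    by_cases hvB : v ∈ (Θ.S ∪ {v | ¬ Θ.Matches φ ρ v})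
    · exact Or.inr hvB
    · left
      rw [Set.mem_union, not_or] at hvB
      refine ⟨hvB.1, fun hY => hσ ?_⟩
      have hm : Θ.Matches φ ρ v := not_not.mp hvB.2
      rw [trace_of_match Θ hn φ ρ v hm σ hσv]
      exact Finset.mem_image_of_mem φ hY

/-- conditions on the value of a homomorphism with open kernel are closed -/
theorem isClosed_of_open_ker {G H : Type*} [Group G] [TopologicalSpace G] [IsTopologicalGroup G]
    [Group H] (ρ : G →* H) (hρ : IsOpen (ρ.ker : Set G)) (P : H → Prop) :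
    IsClosed {σ : G | P (ρ σ)} := by
  rw [← isOpen_compl_iff, isOpen_iff_forall_mem_open]
  intro σ hσ
  refine ⟨(fun x => σ⁻¹ * x) ⁻¹' (ρ.ker : Set G), ?_, hρ.preimage (continuous_const_mul σ⁻¹), ?_⟩
  · intro x hx
    have h1 : ρ x = ρ σ := by
      have h2 : σ⁻¹ * x ∈ ρ.ker := hx
      rw [MonoidHom.mem_ker, map_mul, map_inv, inv_mul_eq_one] at h2
      exact h2.symm
    change ¬ P (ρ x)
    rw [h1]
    exact hσ
  · change σ⁻¹ * σ ∈ ρ.ker
    rw [inv_mul_cancel]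
    exact one_mem _

/-- the primes at which a mod `ℓ` representation does not match the system are finite in number -/
theorem modRep_finite (Θ : HeckeSystem F E n) (r : Θ.ModRep) :
    {v | ¬ Θ.Matches r.φ r.ρ v}.Finite := by
  have hp : (ringChar r.k).Prime := by
    rcases CharP.char_is_prime_or_zero r.k (ringChar r.k) with h | h
    · exact h
    · exfalso
      have : CharP r.k 0 := h ▸ ringChar.charP r.k
      have : CharZero r.k := CharP.charP_to_charZero r.k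
      exact not_finite r.k
  refine (Θ.finite_S.union (Pool.Agent.W352.ChAbs.over_le (K := F) _ hp).1).subset fun v hv => ?_
  by_contra hcon
  rw [Set.mem_union, not_or] at hcon
  exact hv (r.match_of v hcon.1 hcon.2)

/-- **Bound for the image of mod `ℓ` representations.** -/
theorem modRep_size (Θ : HeckeSystem F E n) (hn : 0 < n) (Y : Finset (𝓞 E)) (η : ℝ)
    (hη : (n : ℝ) ^ 2 * η < 1)
    (hfew : ∃ᶠ N : ℕ in atTop,
      dens (fun v : HeightOneSpectrum (𝓞 F) => v ∉ Θ.S ∧ Θ.a v ∉ Y) N ≤ η)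
    (r : Θ.ModRep) (hr : n < ringChar r.k) :
    Finite r.ρ.range ∧ Nat.card r.ρ.range ≤ bd n Y η := by
  refine size Θ hn Y η hη hfew ?_ r.φ r.ρ r.semis (fun Y' => isClosed_of_open_ker r.ρ
    r.isOpen_ker fun M => (M : Matrix (Fin n) (Fin n) r.k).trace ∈ Y')
    (isClosed_of_open_ker r.ρ r.isOpen_ker fun M => M = 1) (modRep_finite Θ r)
  intro m hm hmn h0
  have h1 := (ringChar.spec r.k m).mp h0
  have h2 := Nat.le_of_dvd hm h1
  omega

end Run7.h427.DS
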